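import Mathlib
import Pool.Graph.R_pool_sql_team_seeded_47a924f7.T6.H18.HH.Fano

/-!
# A colouring criterion for the occurrence of `S_{(d^n)} V` in `S^d(S^n V)`
-/

set_option autoImplicit false

namespace Pool.Agent.KS6_89.HHH

open Finset Pool.Agent.T6.H18.HH

/-- Let `d` points and `d` blocks of size `n` be given such that each point is in exactly `n`
blocks, together with a colouring of the points with `n + 1` colours which is injective on each
block, and such that every permutation of the points which carries it to a colouring injective on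
each block preserves the colouring. Then `S_{(d^n)} V` occurs in `S^d(S^n V)`. -/
theorem isotypic_ne_bot_of {m n d : ℕ} (hnm : n ≤ m) (e : Fin d × Fin n ≃ Fin d × Fin n)
    (col : Fin d → Fin (n + 1))
    (hprop : ∀ i, Function.Injective fun j => col (e (i, j)).1)
    (hrig : ∀ σ : Equiv.Perm (Fin d), (∀ i, Function.Injective fun j => col (σ (e (i, j)).1)) →
      ∀ p, col (σ p) = col p) :
    isotypic m d n ≠ ⊥ := by
  classical
  intro hbot
  have h1 : sym (mv e (wedgePow d (fun k : Fin n => Pi.single (Fin.castLE hnm k) 1) :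
      Tensor m (Fin d × Fin n))) ∈ isotypic m d n := by
    refine Submodule.subset_span ⟨fun w => sym (mv e w), ⟨?_, ?_, ?_⟩, ?_, _,
      Submodule.subset_span ⟨_, rfl⟩, rfl⟩
    · intro w _ w' _
      have h2 : mv e (w + w') = mv e w + mv e w' := rfl
      simp only [h2, sym_add]
    · intro c w _
      simp only [mv_smul, sym_smul]
    · intro g w _
      simp only [sym, act_symOut, act_symIn, act_mv]
    · intro w _
      exact sym_mem _
  rw [hbot, Submodule.mem_bot] at h1
  have h2 := congrArg (ev (fun (p : Fin d) (c : Fin m) => ((col p : ℕ) : ℂ) ^ (c : ℕ))) h1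
  have h3 : ev (l := n) (fun (p : Fin d) (c : Fin m) => ((col p : ℕ) : ℂ) ^ (c : ℕ)) 0 = 0 := by
    simp [ev]
  rw [h3, sym, ev_symOut] at h2
  simp only [ev_symIn, ev_mv_wedge] at h2
  rcases mul_eq_zero.1 h2 with h4 | h4
  · exact absurd h4 (inv_ne_zero (fact_ne d))
  -- the terms of the sum
  have h5 : ∀ σ : Equiv.Perm (Fin d), ∏ i : Fin d, Matrix.det (Matrix.of fun (j k : Fin n) =>
      ∑ c : Fin m, ((col (σ (e (i, j)).1) : ℕ) : ℂ) ^ (c : ℕ) *
        (Pi.single (Fin.castLE hnm k) 1 : Fin m → ℂ) c) =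
      ∏ i : Fin d, Matrix.det (Matrix.vandermonde
        (fun j : Fin n => ((col (σ (e (i, j)).1) : ℕ) : ℂ))) := by
    intro σ
    refine prod_congr rfl fun i _ => ?_
    congr 1
    ext j k
    simp [Matrix.vandermonde_apply, Pi.single_apply]
  simp only [h5] at h4
  have hne : ∀ σ : Equiv.Perm (Fin d), (∀ i, Function.Injective fun j => col (σ (e (i, j)).1)) →
      ∏ i : Fin d, Matrix.det (Matrix.vandermonde
        (fun j : Fin n => ((col (σ (e (i, j)).1) : ℕ) : ℂ))) =
      ∏ i : Fin d, Matrix.det (Matrix.vandermonde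
        (fun j : Fin n => ((col ((e (i, j)).1) : ℕ) : ℂ))) := by
    intro σ hσ
    have h6 := hrig σ hσ
    refine prod_congr rfl fun i _ => ?_
    simp only [h6]
  have hz : ∀ σ : Equiv.Perm (Fin d), (¬ ∀ i, Function.Injective fun j => col (σ (e (i, j)).1)) →
      ∏ i : Fin d, Matrix.det (Matrix.vandermonde
        (fun j : Fin n => ((col (σ (e (i, j)).1) : ℕ) : ℂ))) = 0 := by
    intro σ hσ
    push Not at hσ
    obtain ⟨i, hi⟩ := hσ
    refine prod_eq_zero (mem_univ i) ?_
    by_contra h7
    rw [← ne_eq, Matrix.det_vandermonde_ne_zero_iff] at h7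
    apply hi
    intro a b hab
    apply h7
    simp only at hab ⊢
    rw [hab]
  have h0 : ∏ i : Fin d, Matrix.det (Matrix.vandermonde
        (fun j : Fin n => ((col ((e (i, j)).1) : ℕ) : ℂ))) ≠ 0 := by
    refine prod_ne_zero_iff.2 fun i _ => ?_
    rw [Matrix.det_vandermonde_ne_zero_iff]
    intro a b hab
    apply hprop i
    simp only [Nat.cast_inj] at hab
    exact Fin.ext hab
  rw [← Finset.sum_filter_add_sum_filter_not univ
    (fun σ : Equiv.Perm (Fin d) => ∀ i, Function.Injective fun j => col (σ (e (i, j)).1))] at h4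
  rw [Finset.sum_congr rfl (fun σ hσ => hne σ (mem_filter.1 hσ).2),
    Finset.sum_eq_zero (s := univ.filter fun σ : Equiv.Perm (Fin d) =>
      ¬ ∀ i, Function.Injective fun j => col (σ (e (i, j)).1))
      (fun σ hσ => hz σ (mem_filter.1 hσ).2), add_zero, sum_const, nsmul_eq_mul] at h4
  rcases mul_eq_zero.1 h4 with h8 | h8
  · rw [Nat.cast_eq_zero, card_eq_zero] at h8
    have h9 : (1 : Equiv.Perm (Fin d)) ∈ univ.filter
        (fun σ : Equiv.Perm (Fin d) => ∀ i, Function.Injective fun j => col (σ (e (i, j)).1)) := by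
      rw [mem_filter]
      exact ⟨mem_univ _, hprop⟩
    rw [h8] at h9
    simp at h9
  · exact h0 h8

end Pool.Agent.KS6_89.HHH
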