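import Mathlib
import Pool.Graph.R_pool_sql_team_seeded_47a924f7.T6.H18.HH.PrimeGood

/-!
# Even degrees, and `n = 1`
-/

set_option autoImplicit false

namespace Pool.Agent.KS6_89.HHH

open Finset Pool.Agent.T6.H18.HH

theorem good_mul {n d : ℕ} (h : Good n d) (k : ℕ) (hk : 0 < k) : Good n (k * d) := by
  induction k with
  | zero => omega
  | succ k ih =>
    rcases Nat.eq_zero_or_pos k with h0 | h0
    · subst h0
      simpa using h
    · rw [Nat.succ_mul]
      exact (ih h0).add h

theorem good_comb {n d e : ℕ} (h1 : Good n d) (h2 : Good n e) (x y : ℕ) (h : 0 < x + y) :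
    Good n (x * d + y * e) := by
  rcases Nat.eq_zero_or_pos x with hx | hx
  · subst hx
    rw [zero_mul, zero_add]
    exact good_mul h2 y (by omega)
  · rcases Nat.eq_zero_or_pos y with hy | hy
    · subst hy
      rw [zero_mul, add_zero]
      exact good_mul h1 x hx
    · exact (good_mul h1 x hx).add (good_mul h2 y hy)

theorem good_of_prime {n p : ℕ} (hp : p.Prime) (h : n < p) : Good n (p - 1) := by
  have : Fact p.Prime := ⟨hp⟩
  exact good_prime p n (by omega)

/-- small `n` -/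
theorem small_even {m n d : ℕ} (hn : n ≤ 4) (hnm : n ≤ m) (hnd : n ≤ d) (hd0 : 1 ≤ d)
    (hd : Even d) : ∃ t ∈ isotypic m d n, hhh t ≠ 0 := by
  refine exists_of_good hd hnm ?_
  obtain ⟨k, hk⟩ := hd
  by_cases h2 : d = 2
  · subst h2
    exact good_of_prime (p := 3) (by norm_num) (by omega)
  · have h4 : ∃ a b : ℕ, d = a * 4 + b * 6 ∧ 0 < a + b := by
      rcases Nat.even_or_odd k with ⟨j, hj⟩ | ⟨j, hj⟩
      · exact ⟨j, 0, by omega, by omega⟩
      · exact ⟨j - 1, 1, by omega, by omega⟩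
    obtain ⟨a, b, hab, hpos⟩ := h4
    rw [hab]
    exact good_comb (good_of_prime (p := 5) (by norm_num) (by omega))
      (good_of_prime (p := 7) (by norm_num) (by omega)) a b hpos

/-- all large even degrees -/
theorem large_even (n : ℕ) : ∃ D : ℕ, ∀ d m : ℕ, D ≤ d → n ≤ m → Even d →
    ∃ t ∈ isotypic m d n, hhh t ≠ 0 := by
  obtain ⟨p, hpn, hp⟩ := Nat.exists_infinite_primes (n + 5)
  obtain ⟨a, ha⟩ : ∃ a, p = 2 * a + 1 := by
    obtain ⟨a, ha⟩ := hp.odd_of_ne_two (by omega)
    exact ⟨a, ha⟩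
  have : NeZero (p - 1) := ⟨by omega⟩
  have hu : IsUnit (-1 : ZMod (p - 1)) := isUnit_one.neg
  obtain ⟨q, hqp, hq, hqm⟩ := Nat.forall_exists_prime_gt_and_eq_mod hu p
  obtain ⟨b, hb⟩ : ∃ b, q = 2 * b + 1 := by
    obtain ⟨b, hb⟩ := hq.odd_of_ne_two (by omega)
    exact ⟨b, hb⟩
  have hcop : Nat.Coprime a b := by
    -- `q + 1` is a multiple of `2 a`, so `b + 1` is a multiple of `a`
    have h1 : ((q + 1 : ℕ) : ZMod (p - 1)) = 0 := by
      push_cast
      rw [hqm]
      ring
    rw [ZMod.natCast_eq_zero_iff] at h1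
    have h2 : p - 1 = 2 * a := by omega
    have h3 : q + 1 = 2 * (b + 1) := by omega
    rw [h2, h3] at h1
    have h4 : a ∣ b + 1 := Nat.dvd_of_mul_dvd_mul_left (by norm_num) h1
    have h5 : Nat.gcd a b ∣ 1 := by
      have h6 : Nat.gcd a b ∣ b + 1 := (Nat.gcd_dvd_left a b).trans h4
      exact (Nat.dvd_add_right (Nat.gcd_dvd_right a b)).1 h6
    exact Nat.dvd_one.1 h5
  have hfrob := frobeniusNumber_pair hcop (by omega) (by omega)
  refine ⟨2 * (a * b) + 2, fun d m hd hnm hev => ?_⟩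
  obtain ⟨k, hk⟩ := hev
  have hmem : k ∈ AddSubmonoid.closure ({a, b} : Set ℕ) := by
    by_contra h
    have h1 := hfrob.2 h
    have h2 : a * b - a - b ≤ a * b := by
      rw [Nat.sub_sub]
      exact Nat.sub_le _ _
    omega
  rw [AddSubmonoid.mem_closure_pair] at hmem
  obtain ⟨x, y, hxy⟩ := hmem
  rw [smul_eq_mul, smul_eq_mul] at hxy
  refine exists_of_good ⟨k, hk⟩ hnm ?_
  have h3 : d = x * (p - 1) + y * (q - 1) := by
    have e1 : p - 1 = 2 * a := by omega
    have e2 : q - 1 = 2 * b := by omega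
    rw [e1, e2, hk, ← hxy]
    ring
  rw [h3]
  refine good_comb (good_of_prime hp (by omega)) (good_of_prime hq (by omega)) x y ?_
  rcases Nat.eq_zero_or_pos (x + y) with h4 | h4
  · exfalso
    have hx : x = 0 := by omega
    have hy : y = 0 := by omega
    subst hx hy
    simp at hxy
    omega
  · exact h4

/-- the isotypic component is contained in `S^d(S^n V)` -/
theorem isotypic_le {m n d : ℕ} : isotypic m d n ≤ SdSn m d n := by
  refine Submodule.span_le.2 ?_
  rintro _ ⟨f, _, hf2, w, hw, rfl⟩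
  exact hf2 w hw

/-- `n = 1` -/
theorem one_case {m d : ℕ} (h : isotypic m d 1 ≠ ⊥) : ∃ t ∈ isotypic m d 1, hhh t ≠ 0 := by
  obtain ⟨t, ht, hne⟩ := Submodule.exists_mem_ne_zero_of_ne_bot h
  refine ⟨t, ht, fun h0 => hne ?_⟩
  have h1 := isotypic_le ht
  have h2 : regroup t ∈ SdSn m 1 d := by
    refine ⟨fun τ a => ?_, fun σ a => ?_⟩
    · have h3 := h1.2 (τ 0) (fun x => a (x.2, x.1))
      simp only [regroup]
      rw [← h3]
      congr 1
      funext x
      have : x.2 = 0 := Subsingleton.elim _ _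
      rw [this]
    · simp only [regroup]
      congr 1
      funext x
      have : σ x.2 = x.2 := Subsingleton.elim _ _
      rw [this]
  have h4 : hhh t = regroup t := by
    rw [hhh_eq, sym_of_mem h2]
  rw [h4] at h0
  have h5 : regroup (regroup t) = 0 := by
    rw [h0]
    rfl
  rwa [regroup_regroup] at h5

end Pool.Agent.KS6_89.HHH
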