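import Mathlib

/-!
# A cyclic hypergraph with a unique colouring

`F` marks some elements of `ℤ/d`, no two neighbouring ones.  The points are the elements of
`ℤ/d`, the block of `t` consists of `t` and of the points `nxt (t - j)`, `1 ≤ j < n`.
-/

set_option autoImplicit false

namespace Pool.Agent.KS6_89.HHH

open Finset

variable {n d : ℕ} (F : ZMod d → Bool)

/-- the permutation `t ↦ t + 1`, `t - 1` or `t` -/
def sg (t : ZMod d) : ZMod d := if F (t + 1) then t + 1 else if F t then t - 1 else t

/-- the successor map -/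
def nxt (n : ℕ) {d : ℕ} (F : ZMod d → Bool) (t : ZMod d) : ZMod d :=
  if F (t + 1) then t + n + 2 else if F t then t + n else t + n + 1

theorem nxt_eq (t : ZMod d) : nxt n F t = sg F t + (n + 1) := by
  unfold nxt sg
  split_ifs <;> ring

variable {F}

theorem sg_sg (hF : ∀ t, F t = true → F (t + 1) = false) (t : ZMod d) : sg F (sg F t) = t := by
  unfold sg
  by_cases h1 : F (t + 1) = true
  · have h2 := hF _ h1
    simp [h1, h2]
  · by_cases h3 : F t = true
    · simp [h1, h3]
    · simp [h1, h3]

theorem nxt_inj (hF : ∀ t, F t = true → F (t + 1) = false) : Function.Injective (nxt n F) := by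
  intro a b h
  rw [nxt_eq, nxt_eq, add_left_inj] at h
  rw [← sg_sg hF a, h, sg_sg hF b]

/-- the points of the blocks -/
def pt (n : ℕ) {d : ℕ} (F : ZMod d → Bool) (t : ZMod d) (j : Fin n) : ZMod d :=
  if (j : ℕ) = 0 then t else nxt n F (t - (j : ℕ))

theorem pt_inj (hF : ∀ t, F t = true → F (t + 1) = false) (j : Fin n) :
    Function.Injective (fun t => pt n F t j) := by
  intro a b h
  simp only [pt] at h
  by_cases hj : (j : ℕ) = 0
  · simpa [hj] using h
  · simp only [hj, if_false] at h
    have := nxt_inj hF h
    simpa using this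

/-- the last of the points which are present at time `t` -/
def us (n : ℕ) {d : ℕ} (F : ZMod d → Bool) (t : ZMod d) : ZMod d :=
  if F t then t + n + 1 else t + n

section

variable (hn : 4 ≤ n) (hF : ∀ t, F t = true → F (t + 1) = false) (φ : ZMod d → Fin (n + 1))
  (hφ : ∀ t, Function.Injective fun j : Fin n => φ (pt n F t j))

include hF in
theorem F_prev {t : ZMod d} (h : F t = true) : F (t - 1) = false := by
  by_contra h1
  have h2 := hF (t - 1) (by simpa using h1)
  rw [sub_add_cancel, h] at h2
  exact absurd h2 (by simp)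

include hφ in
theorem b0 (t : ZMod d) (i : ℕ) (h1 : 1 ≤ i) (h2 : i < n) : φ (nxt n F t) ≠ φ (t + i) := by
  intro h
  have h3 := @hφ (t + i) ⟨i, h2⟩ ⟨0, by omega⟩ (by
    simp only [pt]
    rw [if_neg (by omega)]
    simpa using h)
  simp only [Fin.mk.injEq] at h3
  omega

include hφ in
theorem b1 (t : ZMod d) (k : ℕ) (h1 : 1 ≤ k) (h2 : k + 2 ≤ n) :
    φ (nxt n F t) ≠ φ (nxt n F (t - k)) := by
  intro h
  have h3 := @hφ (t + 1) ⟨1, by omega⟩ ⟨k + 1, by omega⟩ (by
    simp only [pt]
    rw [if_neg (by omega), if_neg (by omega)]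
    have e1 : t + 1 - ((1 : ℕ) : ZMod d) = t := by push_cast; ring
    have e2 : t + 1 - ((k + 1 : ℕ) : ZMod d) = t - k := by push_cast; ring
    rw [e1, e2]
    exact h)
  simp only [Fin.mk.injEq] at h3
  omega

include hn hF hφ in
theorem bu (t : ZMod d) : φ (nxt n F t) ≠ φ (us n F t) := by
  by_cases h1 : F t = true
  · have h2 : us n F t = nxt n F (t - ((1 : ℕ) : ZMod d)) := by
      simp only [us, nxt, Nat.cast_one, sub_add_cancel, h1, if_true]
      ring
    rw [h2]
    exact b1 φ hφ t 1 le_rfl (by omega)
  · by_cases h3 : F (t - 1) = true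
    · have h2 : us n F t = nxt n F (t - ((2 : ℕ) : ZMod d)) := by
        have e1 : t - ((2 : ℕ) : ZMod d) + 1 = t - 1 := by push_cast; ring
        rw [us, if_neg h1, nxt, e1, if_pos h3]
        push_cast
        ring
      rw [h2]
      exact b1 φ hφ t 2 (by norm_num) (by omega)
    · have h2 : us n F t = nxt n F (t - ((1 : ℕ) : ZMod d)) := by
        rw [Nat.cast_one, us, if_neg h1, nxt, sub_add_cancel, if_neg h1, if_neg h3]
        ring
      rw [h2]
      exact b1 φ hφ t 1 le_rfl (by omega)

include hn hF hφ in
theorem c1 (t : ZMod d) (k : ℕ) (hk1 : 1 ≤ k) (hk2 : k < n) : φ t ≠ φ (t + k) := by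
  -- y is the point `t + k - (n + 1)`
  obtain ⟨y, hy⟩ : ∃ y : ZMod d, y = t + k - (n + 1) := ⟨_, rfl⟩
  have hv : t + k = y + (n + 1) := by rw [hy]; ring
  by_cases h1 : F (y + 1) = true
  · -- s = y + 1
    have h2 : nxt n F (y + 1) = t + k := by
      rw [nxt, if_neg (by rw [hF _ h1]; simp), if_pos h1, hv]; ring
    have h3 := b0 φ hφ (y + 1) (n - k) (by omega) (by omega)
    rw [h2] at h3
    have h4 : y + 1 + ((n - k : ℕ) : ZMod d) = t := by
      rw [Nat.cast_sub (by omega), hy]; ring
    rw [h4] at h3
    exact h3.symm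
  · by_cases h5 : F y = true
    · have h6 := F_prev hF h5
      have h2 : nxt n F (y - 1) = t + k := by
        rw [nxt, sub_add_cancel, if_pos h5, hv]; ring
      by_cases hk3 : 3 ≤ k
      · have h3 := b0 φ hφ (y - 1) (n + 2 - k) (by omega) (by omega)
        rw [h2] at h3
        have h4 : y - 1 + ((n + 2 - k : ℕ) : ZMod d) = t := by
          rw [Nat.cast_sub (by omega), hy]; push_cast; ring
        rw [h4] at h3
        exact h3.symm
      · by_cases hk4 : k = 2
        · subst hk4
          have h3 := bu hn hF φ hφ (y - 1)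
          rw [h2] at h3
          have h4 : us n F (y - 1) = t := by
            rw [us, if_neg (by rw [h6]; simp), hy]; push_cast; ring
          rw [h4] at h3
          exact h3.symm
        · have hk5 : k = 1 := by omega
          subst hk5
          have h3 := b1 φ hφ y 1 le_rfl (by omega)
          have h7 : nxt n F y = t := by
            rw [nxt, if_neg (by rw [hF _ h5]; simp), if_pos h5, hy]; push_cast; ring
          rw [h7] at h3
          have h8 : y - ((1 : ℕ) : ZMod d) = y - 1 := by push_cast; ring
          rw [h8, h2] at h3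
          exact h3
    · have h2 : nxt n F y = t + k := by
        rw [nxt, if_neg h1, if_neg h5, hv]; ring
      by_cases hk3 : 2 ≤ k
      · have h3 := b0 φ hφ y (n + 1 - k) (by omega) (by omega)
        rw [h2] at h3
        have h4 : y + ((n + 1 - k : ℕ) : ZMod d) = t := by
          rw [Nat.cast_sub (by omega), hy]; push_cast; ring
        rw [h4] at h3
        exact h3.symm
      · have hk5 : k = 1 := by omega
        subst hk5
        have h3 := bu hn hF φ hφ y
        rw [h2] at h3
        have h4 : us n F y = t := by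
          rw [us, if_neg h5, hy]; push_cast; ring
        rw [h4] at h3
        exact h3.symm

include hn hφ in
theorem c2 (t : ZMod d) : φ t ≠ φ (us n F t) := by
  by_cases h1 : F t = true
  · have h2 : nxt n F (t - 1) = us n F t := by
      rw [nxt, sub_add_cancel, if_pos h1, us, if_pos h1]; ring
    have h3 := b0 φ hφ (t - 1) 1 le_rfl (by omega)
    rw [h2] at h3
    have h4 : t - 1 + ((1 : ℕ) : ZMod d) = t := by push_cast; ring
    rw [h4] at h3
    exact h3.symm
  · by_cases h5 : F (t - 1) = true
    · have h2 : nxt n F (t - 2) = us n F t := by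
        have e1 : t - 2 + 1 = t - 1 := by ring
        rw [nxt, e1, if_pos h5, us, if_neg h1]; ring
      have h3 := b0 φ hφ (t - 2) 2 (by norm_num) (by omega)
      rw [h2] at h3
      have h4 : t - 2 + ((2 : ℕ) : ZMod d) = t := by push_cast; ring
      rw [h4] at h3
      exact h3.symm
    · have h2 : nxt n F (t - 1) = us n F t := by
        rw [nxt, sub_add_cancel, if_neg h1, if_neg h5, us, if_neg h1]; ring
      have h3 := b0 φ hφ (t - 1) 1 le_rfl (by omega)
      rw [h2] at h3
      have h4 : t - 1 + ((1 : ℕ) : ZMod d) = t := by push_cast; ring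
      rw [h4] at h3
      exact h3.symm

include hn hF hφ in
theorem c3 (t : ZMod d) (i : ℕ) (hi : i < n) : φ (t + i) ≠ φ (us n F t) := by
  by_cases h0 : i = 0
  · subst h0
    simpa using c2 hn φ hφ t
  by_cases h1 : F t = true
  · by_cases hi1 : i = 1
    · subst hi1
      have h2 := c2 hn φ hφ (t + ((1 : ℕ) : ZMod d))
      have h3 : us n F (t + ((1 : ℕ) : ZMod d)) = us n F t := by
        rw [Nat.cast_one, us, if_neg (by rw [hF _ h1]; simp), us, if_pos h1]; ring
      rwa [h3] at h2
    · have h2 := c1 hn hF φ hφ (t + i) (n + 1 - i) (by omega) (by omega)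
      have h3 : t + (i : ZMod d) + ((n + 1 - i : ℕ) : ZMod d) = us n F t := by
        rw [us, if_pos h1, Nat.cast_sub (by omega)]; push_cast; ring
      rwa [h3] at h2
  · have h2 := c1 hn hF φ hφ (t + i) (n - i) (by omega) (by omega)
    have h3 : t + (i : ZMod d) + ((n - i : ℕ) : ZMod d) = us n F t := by
      rw [us, if_neg h1, Nat.cast_sub (by omega)]; ring
    rwa [h3] at h2

/-- the points present at time `t` -/
def CC (n : ℕ) {d : ℕ} (F : ZMod d → Bool) (t : ZMod d) (i : Fin (n + 1)) : ZMod d :=
  if (i : ℕ) < n then t + (i : ℕ) else us n F t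

include hn hF hφ in
theorem CC_inj (t : ZMod d) : Function.Injective fun i => φ (CC n F t i) := by
  have key : ∀ i j : Fin (n + 1), i < j → φ (CC n F t i) ≠ φ (CC n F t j) := by
    intro i j hij
    have hij' : (i : ℕ) < j := hij
    have hjn : (j : ℕ) < n + 1 := j.2
    have hi : (i : ℕ) < n := by omega
    by_cases hj : (j : ℕ) < n
    · simp only [CC, hi, hj, if_true]
      have h2 := c1 hn hF φ hφ (t + (i : ℕ)) (j - i) (by omega) (by omega)
      have h3 : t + ((i : ℕ) : ZMod d) + ((j - i : ℕ) : ZMod d) = t + ((j : ℕ) : ZMod d) := by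
        rw [Nat.cast_sub (by omega)]; ring
      rwa [h3] at h2
    · simp only [CC, hi, hj, if_true]
      exact c3 hn hF φ hφ t i hi
  intro i j h
  rcases lt_trichotomy i j with h1 | h1 | h1
  · exact absurd h (key i j h1)
  · exact h1
  · exact absurd h.symm (key j i h1)

include hn hF hφ in
theorem phi_nxt (t : ZMod d) : φ (nxt n F t) = φ t := by
  have h1 : Function.Surjective fun i => φ (CC n F t i) :=
    Finite.surjective_of_injective (CC_inj hn hF φ hφ t)
  obtain ⟨i, hi⟩ := h1 (φ (nxt n F t))
  simp only at hi
  by_cases h2 : (i : ℕ) < n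
  · by_cases h3 : (i : ℕ) = 0
    · have h4 : CC n F t i = t := by
        rw [CC, if_pos h2, h3, Nat.cast_zero, add_zero]
      rw [h4] at hi
      exact hi.symm
    · simp only [CC, h2, if_true] at hi
      exact absurd hi.symm (b0 φ hφ t i (by omega) h2)
  · simp only [CC, h2, if_false] at hi
    exact absurd hi.symm (bu hn hF φ hφ t)

theorem CC_zero (hn : 4 ≤ n) (t : ZMod d) : CC n F t 0 = t := by
  have : (0 : ℕ) < n := by omega
  simp [CC, this]

include hF in
/-- the points present at time `t + 1` are the points present at time `t` and `nxt t` -/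
theorem CC_succ (hn : 4 ≤ n) (t : ZMod d) (i : Fin (n + 1)) :
    (∃ j, CC n F (t + 1) i = CC n F t j) ∨ CC n F (t + 1) i = nxt n F t := by
  by_cases h1 : (i : ℕ) < n
  · by_cases h2 : (i : ℕ) + 1 < n
    · left
      refine ⟨⟨i + 1, by omega⟩, ?_⟩
      simp only [CC, h1, h2, if_true]
      push_cast; ring
    · have h3 : (i : ℕ) + 1 = n := by omega
      have h4 : CC n F (t + 1) i = t + n := by
        have h5 : ((n : ℕ) : ZMod d) = (i : ℕ) + 1 := by
          exact_mod_cast (congrArg (Nat.cast : ℕ → ZMod d) h3).symm
        simp only [CC, h1, if_true]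
        rw [h5]; ring
      by_cases h5 : F t = true
      · right
        rw [h4, nxt, if_neg (by rw [hF _ h5]; simp), if_pos h5]
      · left
        refine ⟨⟨n, by omega⟩, ?_⟩
        rw [h4]
        simp [CC, us, h5]
  · have h4 : CC n F (t + 1) i = us n F (t + 1) := by simp only [CC, h1, if_false]
    by_cases h5 : F (t + 1) = true
    · right
      rw [h4, us, if_pos h5, nxt, if_pos h5]; ring
    · by_cases h6 : F t = true
      · left
        refine ⟨⟨n, by omega⟩, ?_⟩
        rw [h4, us, if_neg h5]
        simp only [CC, us, h6, lt_irrefl, if_false, if_true]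
        ring
      · right
        rw [h4, us, if_neg h5, nxt, if_neg h5, if_neg h6]; ring

end

/-- Rigidity: if the colour classes of a proper colouring have different sizes, then it is the
only proper colouring with these class sizes. -/
theorem rigid [NeZero d] (hn : 4 ≤ n) (hF : ∀ t, F t = true → F (t + 1) = false)
    (col : ZMod d → Fin (n + 1))
    (hcol : ∀ t, Function.Injective fun j : Fin n => col (pt n F t j))
    (N : Fin (n + 1) → ℕ) (hN : Function.Injective N)
    (hcard : ∀ c, (univ.filter fun t => col t = c).card = N c)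
    (σ : Equiv.Perm (ZMod d)) (hσ : ∀ t, Function.Injective fun j : Fin n => col (σ (pt n F t j))) :
    ∀ p, col (σ p) = col p := by
  classical
  let φ : ZMod d → Fin (n + 1) := fun t => col (σ t)
  have hφ : ∀ t, Function.Injective fun j : Fin n => φ (pt n F t j) := hσ
  -- the permutation of the colours
  have hb1 : Function.Bijective fun i => φ (CC n F 0 i) :=
    (CC_inj hn hF φ hφ 0).bijective_of_finite
  have hb2 : Function.Bijective fun i => col (CC n F 0 i) :=
    (CC_inj hn hF col hcol 0).bijective_of_finite
  let e1 := Equiv.ofBijective _ hb1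
  let e2 := Equiv.ofBijective _ hb2
  let π : Equiv.Perm (Fin (n + 1)) := e2.symm.trans e1
  have hπ0 : ∀ i, φ (CC n F 0 i) = π (col (CC n F 0 i)) := by
    intro i
    have h1 : col (CC n F 0 i) = e2 i := rfl
    have h2 : φ (CC n F 0 i) = e1 i := rfl
    rw [h1, h2]
    simp [π]
  have hπ : ∀ t : ℕ, ∀ i, φ (CC n F (t : ZMod d) i) = π (col (CC n F (t : ZMod d) i)) := by
    intro t
    induction t with
    | zero => simpa using hπ0
    | succ t ih =>
      intro i
      rw [Nat.cast_succ]
      rcases CC_succ hF hn (t : ZMod d) i with ⟨j, hj⟩ | hj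
      · rw [hj]; exact ih j
      · rw [hj, phi_nxt hn hF φ hφ, phi_nxt hn hF col hcol]
        have := ih 0
        rwa [CC_zero hn] at this
  have hπ' : ∀ t : ZMod d, φ t = π (col t) := by
    intro t
    have h1 := hπ t.val 0
    rwa [ZMod.natCast_zmod_val, CC_zero hn] at h1
  -- the sizes of the classes
  have hsize : ∀ c, N (π.symm c) = N c := by
    intro c
    rw [← hcard, ← hcard]
    have h1 : (univ.filter fun t => col t = π.symm c) = univ.filter fun t => φ t = c := by
      ext t
      simp only [mem_filter, mem_univ, true_and, hπ' t]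
      rw [Equiv.eq_symm_apply]
    rw [h1]
    refine card_bij' (fun t _ => σ t) (fun t _ => σ.symm t) ?_ ?_ ?_ ?_
    · intro t ht
      simpa using (mem_filter.1 ht).2
    · intro t ht
      simp only [mem_filter, mem_univ, true_and] at ht ⊢
      simp only [φ, Equiv.apply_symm_apply]
      exact ht
    · intro t _
      simp
    · intro t _
      simp
  intro p
  have h1 := hπ' p
  have h2 : π (col p) = col p := by
    have h3 := hN (hsize (π (col p)))
    rw [Equiv.symm_apply_apply] at h3
    exact h3.symm
  rw [h2] at h1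
  exact h1

end Pool.Agent.KS6_89.HHH
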