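import Mathlib

/-!
# Closed walks of arrangements
-/

set_option autoImplicit false

namespace Pool.Agent.KS6_89.HHH

open Finset

/-- the cyclic rotation of `0, …, n` -/
def r (n i : ℕ) : ℕ := if i < n then i + 1 else if i = n then 0 else i

/-- the cyclic rotation of `0, …, n - 1` -/
def r' (n i : ℕ) : ℕ := if i + 1 < n then i + 1 else if i + 1 = n then 0 else i

/-- arrangements of colours with a flag -/
structure St (n : ℕ) where
  A : ℕ → Fin (n + 1)
  f : Bool

/-- the transitions -/
def Stp {n : ℕ} (s s' : St n) : Prop :=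
  s'.A = (if s.f then s.A ∘ r' n else s.A ∘ r n) ∧ (s.f = true → s'.f = false)

/-- there is a walk of length `k` which has `N c` times the colour `c` at the position `0` -/
def Reach {n : ℕ} (s : St n) (k : ℕ) (N : Fin (n + 1) → ℕ) (s' : St n) : Prop :=
  ∃ p : ℕ → St n, p 0 = s ∧ p k = s' ∧ (∀ i < k, Stp (p i) (p (i + 1))) ∧
    ∀ c, ∑ i ∈ range k, (if (p i).A 0 = c then 1 else 0) = N c

variable {n : ℕ}

theorem Reach.refl (s : St n) : Reach s 0 (fun _ => 0) s :=
  ⟨fun _ => s, rfl, rfl, fun i hi => absurd hi (by omega), fun c => by simp⟩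

theorem Reach.trans {s s' s'' : St n} {k l : ℕ} {N M : Fin (n + 1) → ℕ} (h1 : Reach s k N s')
    (h2 : Reach s' l M s'') : Reach s (k + l) (fun c => N c + M c) s'' := by
  obtain ⟨p, p0, pk, pS, pN⟩ := h1
  obtain ⟨q, q0, ql, qS, qM⟩ := h2
  have hk : ∀ i, k ≤ i → (if i < k then p i else q (i - k)) = q (i - k) := by
    intro i hi
    rw [if_neg (by omega)]
  refine ⟨fun i => if i < k then p i else q (i - k), ?_, ?_, ?_, ?_⟩
  · by_cases h : 0 < k
    · simp only [h, if_true, p0]
    · have h0 : k = 0 := by omega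
      subst h0
      simp only [lt_irrefl, if_false, Nat.sub_zero, q0, ← pk, p0]
  · show (if k + l < k then p (k + l) else q (k + l - k)) = s''
    rw [hk _ (by omega), Nat.add_sub_cancel_left, ql]
  · intro i hi
    show Stp (if i < k then p i else q (i - k)) (if i + 1 < k then p (i + 1) else q (i + 1 - k))
    by_cases h : i + 1 < k
    · rw [if_pos (by omega), if_pos h]
      exact pS i (by omega)
    · by_cases h' : i + 1 = k
      · rw [if_pos (by omega), hk _ (by omega)]
        have h3 := pS i (by omega)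
        rw [h', pk] at h3
        rw [h', Nat.sub_self, q0]
        exact h3
      · rw [hk _ (by omega), hk _ (by omega)]
        have h3 : i + 1 - k = (i - k) + 1 := by omega
        rw [h3]
        exact qS _ (by omega)
  · intro c
    show _ = N c + M c
    rw [Finset.sum_range_add, ← pN c, ← qM c]
    congr 1
    · refine sum_congr rfl fun i hi => ?_
      simp only [mem_range.1 hi, if_true]
    · refine sum_congr rfl fun i _ => ?_
      have h3 : ¬ (k + i < k) := by omega
      simp only [h3, if_false, Nat.add_sub_cancel_left]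

theorem Reach.congr {s s' : St n} {k l : ℕ} {N M : Fin (n + 1) → ℕ} (h1 : Reach s k N s')
    (hk : k = l) (hN : ∀ c, N c = M c) : Reach s l M s' := by
  subst hk
  have : N = M := funext hN
  subst this
  exact h1

theorem Reach.iter {s : St n} {k : ℕ} {N : Fin (n + 1) → ℕ} (h : Reach s k N s) (m : ℕ) :
    Reach s (m * k) (fun c => m * N c) s := by
  induction m with
  | zero => exact (Reach.refl s).congr (by simp) (by simp)
  | succ m ih => exact (ih.trans h).congr (by ring) (fun c => by ring)

theorem reach_norm (A : ℕ → Fin (n + 1)) (k : ℕ) :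
    Reach ⟨A, false⟩ k (fun c => ∑ i ∈ range k, if A ((r n)^[i] 0) = c then 1 else 0)
      ⟨A ∘ (r n)^[k], false⟩ := by
  refine ⟨fun i => ⟨A ∘ (r n)^[i], false⟩, rfl, rfl, ?_, ?_⟩
  · intro i _
    refine ⟨?_, fun _ => rfl⟩
    show A ∘ (r n)^[i + 1] = (A ∘ (r n)^[i]) ∘ r n
    rw [Function.iterate_succ]
    rfl
  · intro c
    rfl

theorem r_iter (k : ℕ) (hk : k ≤ n + 1) (i : ℕ) :
    (r n)^[k] i = if i ≤ n then (if i + k ≤ n then i + k else i + k - (n + 1)) else i := by
  induction k with
  | zero =>
    simp only [Function.iterate_zero, id_eq, Nat.add_zero]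
    split_ifs <;> omega
  | succ k ih =>
    have h := ih (by omega)
    rw [Function.iterate_succ_apply', r]
    generalize (r n)^[k] i = y at *
    split_ifs at h ⊢ <;> omega

/-- the rotation of the elements different from `1` -/
def th (n : ℕ) : ℕ → ℕ := r n ∘ r' n ∘ (r n)^[n - 2]

theorem th_eq (hn : 3 ≤ n) (i : ℕ) : th n i = if i = 0 then n else if i = 1 then 1 else
    if i = 2 then 0 else if i ≤ n then i - 1 else i := by
  unfold th
  simp only [Function.comp_apply]
  rw [r_iter _ (by omega), r, r']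
  split_ifs <;> omega

theorem th_iter (hn : 3 ≤ n) (q : ℕ) (hq : q ≤ n) (i : ℕ) :
    (th n)^[q] i = if i = 1 then 1 else if n < i then i else
      if q ≤ i - 1 then (if i - 1 = q then 0 else i - q) else
        (if i - 1 + n = q then 0 else i - 1 + n - q + 1) := by
  induction q with
  | zero =>
    simp only [Function.iterate_zero, id_eq]
    split_ifs <;> omega
  | succ q ih =>
    have h := ih (by omega)
    rw [Function.iterate_succ_apply', th_eq hn]
    generalize (th n)^[q] i = y at *
    split_ifs at h ⊢ <;> omega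

theorem th_iter_n (hn : 3 ≤ n) : (th n)^[n] = id := by
  funext i
  rw [th_iter hn n le_rfl]
  simp only [id_eq]
  split_ifs <;> omega

theorem r_iter_n : (r n)^[n + 1] = id := by
  funext i
  rw [r_iter _ le_rfl]
  simp only [id_eq]
  split_ifs <;> omega

theorem reach_seg (hn : 3 ≤ n) (A : ℕ → Fin (n + 1)) :
    Reach ⟨A, false⟩ n (fun c => ∑ i ∈ range n, if A i = c then 1 else 0) ⟨A ∘ th n, false⟩ := by
  refine ⟨fun i => if i = 0 then ⟨A, false⟩ else if i = 1 then ⟨A ∘ r n, true⟩ else
    ⟨A ∘ (r n ∘ r' n ∘ (r n)^[i - 2]), false⟩, rfl, ?_, ?_, ?_⟩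
  · show (if n = 0 then (⟨A, false⟩ : St n) else if n = 1 then ⟨A ∘ r n, true⟩ else
      ⟨A ∘ (r n ∘ r' n ∘ (r n)^[n - 2]), false⟩) = _
    rw [if_neg (by omega), if_neg (by omega)]
    rfl
  · intro i hi
    rcases i with _ | _ | i
    · exact ⟨rfl, fun _ => by simp at *⟩
    · refine ⟨?_, fun _ => rfl⟩
      rfl
    · refine ⟨?_, fun _ => rfl⟩
      show A ∘ (r n ∘ r' n ∘ (r n)^[i + 2 + 1 - 2]) = (A ∘ (r n ∘ r' n ∘ (r n)^[i + 2 - 2])) ∘ r n
      have h1 : i + 2 + 1 - 2 = i + 1 := by omega
      have h2 : i + 2 - 2 = i := by omega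
      rw [h1, h2, Function.iterate_succ]
      rfl
  · intro c
    refine sum_congr rfl fun i hi => ?_
    have hi' := mem_range.1 hi
    rcases i with _ | _ | i
    · rfl
    · show (if A (r n 0) = c then 1 else 0) = _
      have : r n 0 = 0 + 1 := by
        rw [r, if_pos (by omega)]
      rw [this]
    · show (if A (r n (r' n ((r n)^[i + 2 - 2] 0))) = c then 1 else 0) = _
      have h1 : r n (r' n ((r n)^[i + 2 - 2] 0)) = i + 1 + 1 := by
        rw [r_iter _ (by omega), r, r']
        split_ifs <;> omega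
      rw [h1]

theorem reach_lap_aux (hn : 3 ≤ n) (A : ℕ → Fin (n + 1)) (q : ℕ) :
    Reach ⟨A, false⟩ (q * n)
      (fun c => ∑ j ∈ range q, ∑ i ∈ range n, if A ((th n)^[j] i) = c then 1 else 0)
      ⟨A ∘ (th n)^[q], false⟩ := by
  induction q with
  | zero => exact (Reach.refl _).congr (by simp) (by simp)
  | succ q ih =>
    have h := ih.trans (reach_seg hn (A ∘ (th n)^[q]))
    rw [Function.iterate_succ]
    refine h.congr (by ring) fun c => ?_
    rw [sum_range_succ]
    rfl

/-- injectivity on `0, …, n` -/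
def Inj (n : ℕ) (A : ℕ → Fin (n + 1)) : Prop := ∀ i ≤ n, ∀ j ≤ n, A i = A j → i = j

theorem cnt_full {A : ℕ → Fin (n + 1)} (hA : Inj n A) (c : Fin (n + 1)) :
    ∑ i ∈ range (n + 1), (if A i = c then 1 else 0) = 1 := by
  classical
  have h1 : Function.Bijective fun i : Fin (n + 1) => A i := by
    apply Function.Injective.bijective_of_finite
    intro i j hij
    exact Fin.ext (hA i (by omega) j (by omega) hij)
  rw [Finset.sum_range (fun i => if A i = c then 1 else 0)]
  obtain ⟨i, hi⟩ := h1.2 c
  rw [sum_eq_single i]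
  · exact if_pos hi
  · intro j _ hj
    exact if_neg fun h => hj (h1.1 (by simp only; rw [h, ← hi]))
  · simp

theorem inj_comp {A : ℕ → Fin (n + 1)} (hA : Inj n A) {g : ℕ → ℕ} (h1 : ∀ i ≤ n, g i ≤ n)
    (h2 : ∀ i ≤ n, ∀ j ≤ n, g i = g j → i = j) : Inj n (A ∘ g) :=
  fun i hi j hj h => h2 i hi j hj (hA _ (h1 i hi) _ (h1 j hj) h)

theorem inj_r {A : ℕ → Fin (n + 1)} (hA : Inj n A) : Inj n (A ∘ r n) := by
  apply inj_comp hA
  · intro i hi
    unfold r
    split_ifs <;> omega
  · intro i hi j hj h
    unfold r at h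
    split_ifs at h <;> omega

theorem inj_r' {A : ℕ → Fin (n + 1)} (hA : Inj n A) : Inj n (A ∘ r' n) := by
  apply inj_comp hA
  · intro i hi
    unfold r'
    split_ifs <;> omega
  · intro i hi j hj h
    unfold r' at h
    split_ifs at h <;> omega

theorem inj_r_iter {A : ℕ → Fin (n + 1)} (hA : Inj n A) (k : ℕ) : Inj n (A ∘ (r n)^[k]) := by
  induction k with
  | zero => exact hA
  | succ k ih =>
    rw [Function.iterate_succ]
    exact inj_r ih

theorem inj_th_iter (hn : 3 ≤ n) {A : ℕ → Fin (n + 1)} (hA : Inj n A) (q : ℕ) (hq : q ≤ n) :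
    Inj n (A ∘ (th n)^[q]) := by
  apply inj_comp hA
  · intro i hi
    rw [th_iter hn q hq]
    split_ifs <;> omega
  · intro i hi j hj h
    rw [th_iter hn q hq, th_iter hn q hq] at h
    split_ifs at h <;> omega

theorem lap_cnt (hn : 3 ≤ n) {A : ℕ → Fin (n + 1)} (hA : Inj n A) (c : Fin (n + 1)) :
    ∑ j ∈ range n, ∑ i ∈ range n, (if A ((th n)^[j] i) = c then 1 else 0) =
      n - 1 + (if A 1 = c then 1 else 0) := by
  have h1 : ∀ j ∈ range n, ∑ i ∈ range n, (if A ((th n)^[j] i) = c then 1 else 0) +
      (if A ((th n)^[j] n) = c then 1 else 0) = 1 := by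
    intro j hj
    rw [← sum_range_succ (fun i => if A ((th n)^[j] i) = c then 1 else 0)]
    exact cnt_full (inj_th_iter hn hA j (by have := mem_range.1 hj; omega)) c
  have h2 := sum_congr rfl h1
  rw [sum_add_distrib, sum_const, card_range, smul_eq_mul, mul_one] at h2
  -- the omitted colours
  let g : ℕ → ℕ := fun q => if q < n then (th n)^[q] n else 1
  have hg : Inj n (A ∘ g) := by
    have hg' : ∀ q ≤ n, g q = if q = n then 1 else if q = n - 1 then 0 else n - q := by
      intro q hq
      simp only [g]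
      by_cases h : q < n
      · rw [if_pos h, th_iter hn q hq]
        split_ifs <;> omega
      · rw [if_neg h, if_pos (by omega)]
    apply inj_comp hA
    · intro i hi
      rw [hg' i hi]
      split_ifs <;> omega
    · intro i hi j hj h
      rw [hg' i hi, hg' j hj] at h
      split_ifs at h <;> omega
  have h3 := cnt_full hg c
  rw [sum_range_succ] at h3
  have h4 : ∑ x ∈ range n, (if (A ∘ g) x = c then 1 else 0) =
      ∑ j ∈ range n, (if A ((th n)^[j] n) = c then 1 else 0) := by
    refine sum_congr rfl fun j hj => ?_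
    simp only [Function.comp_apply, g, mem_range.1 hj, if_true]
  have h5 : (A ∘ g) n = A 1 := by simp [g]
  rw [h4, h5] at h3
  omega

theorem reach_stage (hn : 3 ≤ n) {A : ℕ → Fin (n + 1)} (hA : Inj n A) (l : ℕ) :
    Reach ⟨A, false⟩ (l * (n * n) + 1)
      (fun c => l * (n - 1 + (if A 1 = c then 1 else 0)) + (if A 0 = c then 1 else 0))
      ⟨A ∘ r n, false⟩ := by
  have h1 := reach_lap_aux hn A n
  rw [th_iter_n hn] at h1
  have h2 : Reach ⟨A, false⟩ (n * n) (fun c => n - 1 + (if A 1 = c then 1 else 0)) ⟨A, false⟩ :=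
    h1.congr rfl (lap_cnt hn hA)
  refine ((h2.iter l).trans (reach_norm A 1)).congr rfl fun c => ?_
  show _ + ∑ i ∈ range 1, (if A ((r n)^[i] 0) = c then 1 else 0) = _
  rw [sum_range_one]
  rfl

theorem reach_stages (hn : 3 ≤ n) {A : ℕ → Fin (n + 1)} (hA : Inj n A) (l : ℕ → ℕ) (k : ℕ) :
    Reach ⟨A, false⟩ (∑ i ∈ range k, (l i * (n * n) + 1))
      (fun c => ∑ i ∈ range k, (l i * (n - 1 + (if A ((r n)^[i] 1) = c then 1 else 0)) +
        (if A ((r n)^[i] 0) = c then 1 else 0)))
      ⟨A ∘ (r n)^[k], false⟩ := by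
  induction k with
  | zero => exact (Reach.refl _).congr (by simp) (by simp)
  | succ k ih =>
    have h := ih.trans (reach_stage hn (inj_r_iter hA k) (l k))
    rw [Function.iterate_succ]
    refine h.congr ?_ fun c => ?_
    · rw [sum_range_succ]
    · rw [sum_range_succ]
      rfl

/-- the initial arrangement -/
def A0 (n : ℕ) (i : ℕ) : Fin (n + 1) := ⟨i % (n + 1), Nat.mod_lt _ (by omega)⟩

theorem A0_inj : Inj n (A0 n) := by
  intro i hi j hj h
  simp only [A0, Fin.mk.injEq] at h
  rwa [Nat.mod_eq_of_lt (by omega), Nat.mod_eq_of_lt (by omega)] at h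

/-- closed walks for which the numbers of the colours are pairwise different -/
theorem closed_walk (hn : 3 ≤ n) (l : ℕ → ℕ) (hl : ∀ i ≤ n, ∀ j ≤ n, l i = l j → i = j)
    (R : ℕ) : ∃ N : Fin (n + 1) → ℕ, Function.Injective N ∧
      Reach ⟨A0 n, false⟩ (n ^ 2 * (∑ i ∈ range (n + 1), l i) + (n + 1) * (R + 1)) N
        ⟨A0 n, false⟩ := by
  have h1 := reach_stages hn (A0_inj (n := n)) l (n + 1)
  rw [r_iter_n] at h1
  have h2 : Reach ⟨A0 n, false⟩ (n + 1) (fun _ => 1) ⟨A0 n, false⟩ := by
    have h3 := reach_norm (A0 n) (n + 1)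
    rw [r_iter_n] at h3
    refine h3.congr rfl fun c => ?_
    have h4 : ∀ i ∈ range (n + 1), (if A0 n ((r n)^[i] 0) = c then 1 else 0) =
        if A0 n i = c then 1 else 0 := by
      intro i hi
      have hi' := mem_range.1 hi
      rw [r_iter _ (by omega)]
      have : (if 0 ≤ n then if 0 + i ≤ n then 0 + i else 0 + i - (n + 1) else 0) = i := by
        split_ifs <;> omega
      rw [this]
    rw [sum_congr rfl h4]
    exact cnt_full A0_inj c
  have h3 := h1.trans (h2.iter R)
  refine ⟨_, ?_, h3.congr ?_ fun c => rfl⟩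
  · -- injectivity
    have h5 : ∀ c : Fin (n + 1), ∑ i ∈ range (n + 1), (l i * (n - 1 +
        (if A0 n ((r n)^[i] 1) = c then 1 else 0)) +
        (if A0 n ((r n)^[i] 0) = c then 1 else 0)) + R * 1 =
        (∑ i ∈ range (n + 1), l i) * (n - 1) + l (if (c : ℕ) = 0 then n else c - 1) + (1 + R) := by
      intro c
      have hc := c.2
      have e1 : ∀ i ∈ range (n + 1), l i * (n - 1 + (if A0 n ((r n)^[i] 1) = c then 1 else 0)) +
          (if A0 n ((r n)^[i] 0) = c then 1 else 0) =
          l i * (n - 1) + (l i * (if A0 n ((r n)^[i] 1) = c then 1 else 0)) +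
            (if A0 n i = c then 1 else 0) := by
        intro i hi
        have hi' := mem_range.1 hi
        have e2 : (r n)^[i] 0 = i := by
          rw [r_iter _ (by omega)]
          split_ifs <;> omega
        rw [e2]
        ring
      rw [sum_congr rfl e1, sum_add_distrib, sum_add_distrib, cnt_full A0_inj c, ← sum_mul]
      have e3 : ∑ i ∈ range (n + 1), l i * (if A0 n ((r n)^[i] 1) = c then 1 else 0) =
          l (if (c : ℕ) = 0 then n else c - 1) := by
        obtain ⟨ic, hic⟩ : ∃ ic : ℕ, ic = if (c : ℕ) = 0 then n else (c : ℕ) - 1 := ⟨_, rfl⟩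
        rw [← hic]
        have hicn : ic ≤ n := by
          rw [hic]
          split_ifs <;> omega
        have hr1 : (r n)^[ic] 1 = (c : ℕ) := by
          rw [r_iter _ (by omega)]
          split_ifs at hic ⊢ <;> omega
        have hr2 : ∀ i ≤ n, (r n)^[i] 1 ≤ n ∧ ((r n)^[i] 1 = (c : ℕ) → i = ic) := by
          intro i hi
          rw [r_iter _ (by omega)]
          split_ifs at hic ⊢ <;> omega
        rw [sum_eq_single ic]
        · have h : A0 n ((r n)^[ic] 1) = c := by
            apply Fin.ext
            simp only [A0]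
            rw [hr1, Nat.mod_eq_of_lt hc]
          rw [if_pos h, mul_one]
        · intro i hi hne
          have hi' := mem_range.1 hi
          obtain ⟨h7, h8⟩ := hr2 i (by omega)
          have h : ¬ A0 n ((r n)^[i] 1) = c := by
            intro h
            have h' := congrArg Fin.val h
            simp only [A0] at h'
            rw [Nat.mod_eq_of_lt (by omega)] at h'
            exact hne (h8 h')
          rw [if_neg h, mul_zero]
        · intro h
          exact absurd (mem_range.2 (by omega)) h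
      rw [e3]
      ring
    intro c c' hcc
    simp only at hcc
    rw [h5, h5] at hcc
    have hc := c.2
    have hc' := c'.2
    have h6 := hl (if (c : ℕ) = 0 then n else c - 1) (by split_ifs <;> omega)
      (if (c' : ℕ) = 0 then n else c' - 1) (by split_ifs <;> omega) (by omega)
    apply Fin.ext
    revert h6
    split_ifs <;> omega
  · rw [sum_add_distrib, ← sum_mul, sum_const, card_range, smul_eq_mul]
    ring

end Pool.Agent.KS6_89.HHH
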