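import Mathlib
import Pool.Agent.KS6_89.HHH.Core
import Pool.Agent.KS6_89.HHH.Rigid
import Pool.Agent.KS6_89.HHH.Walk

/-!
# `S_{(d^n)} V` occurs in `S^d(S^n V)` for all `n ≥ 4` and all `d ≥ n ^ 4`
-/

set_option autoImplicit false

namespace Pool.Agent.KS6_89.HHH

open Finset Pool.Agent.T6.H18.HH

/-- a closed walk gives a cyclic hypergraph with a rigid colouring -/
theorem exists_cyclic {n d : ℕ} [NeZero d] (hn : 4 ≤ n) (N : Fin (n + 1) → ℕ)
    (h : Reach ⟨A0 n, false⟩ d N ⟨A0 n, false⟩) :
    ∃ (F : ZMod d → Bool) (col : ZMod d → Fin (n + 1)), (∀ t, F t = true → F (t + 1) = false) ∧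
      (∀ t, Function.Injective fun j : Fin n => col (pt n F t j)) ∧
      ∀ c, (univ.filter fun t => col t = c).card = N c := by
  classical
  obtain ⟨p, p0, pd, pS, pN⟩ := h
  have hd : 0 < d := Nat.pos_of_ne_zero (NeZero.ne d)
  let st : ZMod d → St n := fun z => p z.val
  have hst : ∀ z : ZMod d, Stp (st z) (st (z + 1)) := by
    intro z
    have hz : z.val < d := ZMod.val_lt z
    have h1 : (z + 1).val = (z.val + 1) % d := by
      have : z + 1 = ((z.val + 1 : ℕ) : ZMod d) := by
        rw [Nat.cast_add, ZMod.natCast_zmod_val, Nat.cast_one]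
      rw [this, ZMod.val_natCast]
    have h2 : st (z + 1) = p (z.val + 1) := by
      show p (z + 1).val = _
      rw [h1]
      by_cases h3 : z.val + 1 < d
      · rw [Nat.mod_eq_of_lt h3]
      · have h4 : z.val + 1 = d := by omega
        rw [h4, Nat.mod_self, p0, pd]
    rw [h2]
    exact pS _ hz
  have hinj : ∀ z : ZMod d, Inj n (st z).A := by
    have h1 : ∀ i : ℕ, i ≤ d → Inj n (p i).A := by
      intro i
      induction i with
      | zero => intro _; rw [p0]; exact A0_inj
      | succ i ih =>
        intro hi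
        have h2 := (pS i (by omega)).1
        rw [h2]
        split_ifs
        · exact inj_r' (ih (by omega))
        · exact inj_r (ih (by omega))
    intro z
    exact h1 _ (ZMod.val_lt z).le
  let F : ZMod d → Bool := fun z => (st z).f
  let col : ZMod d → Fin (n + 1) := fun z => (st z).A 0
  have hF : ∀ t, F t = true → F (t + 1) = false := fun t => (hst t).2
  have hstep : ∀ t : ZMod d, ∀ i, (st (t + 1)).A i = (st t).A (if F t then r' n i else r n i) := by
    intro t i
    rw [(hst t).1]
    by_cases h1 : F t = true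
    · have h2 : (st t).f = true := h1
      simp only [h1, h2, if_true, Function.comp_apply]
    · have h2 : ¬ (st t).f = true := h1
      rw [if_neg h2, if_neg h1]
      rfl
  -- the arrangement gives the next colours
  have hL1 : ∀ i : ℕ, i < n → ∀ t : ZMod d, (st t).A i = col (t + i) := by
    intro i
    induction i with
    | zero => intro _ t; simp [col]
    | succ i ih =>
      intro hi t
      have h1 := hstep t i
      have h2 : (if F t then r' n i else r n i) = i + 1 := by
        unfold r r'
        split_ifs <;> omega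
      rw [h2] at h1
      rw [← h1, ih (by omega)]
      congr 1
      push_cast
      ring
  have hL2f : ∀ t : ZMod d, F t = false → (st t).A n = col (t + n) := by
    intro t ht
    have h1 := hstep t (n - 1)
    have h2 : (if F t then r' n (n - 1) else r n (n - 1)) = n := by
      rw [ht]
      unfold r
      simp only [Bool.false_eq_true, if_false]
      split_ifs <;> omega
    rw [h2] at h1
    rw [← h1, hL1 _ (by omega)]
    congr 1
    rw [Nat.cast_sub (by omega)]
    push_cast
    ring
  have hL2 : ∀ t : ZMod d, (st t).A n = col (us n F t) := by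
    intro t
    by_cases h1 : F t = true
    · have h2 := hstep t n
      have h3 : (if F t then r' n n else r n n) = n := by
        rw [h1]
        unfold r'
        simp only [if_true]
        split_ifs <;> omega
      rw [h3] at h2
      rw [← h2, hL2f _ (hF t h1), us, if_pos h1]
      congr 1
      ring
    · rw [hL2f t (by simpa using h1), us, if_neg h1]
  have hL3 : ∀ t : ZMod d, col (nxt n F t) = col t := by
    intro t
    by_cases h1 : F (t + 1) = true
    · have h2 : F t = false := by
        by_contra h3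
        have h4 := hF t (by simpa using h3)
        rw [h1] at h4
        exact absurd h4 (by simp)
      have h5 := hstep t n
      have h6 : (if F t then r' n n else r n n) = 0 := by
        rw [h2]
        unfold r
        simp
      rw [h6, hL2, us, if_pos h1] at h5
      rw [nxt, if_pos h1]
      rw [show t + (n : ZMod d) + 2 = t + 1 + n + 1 by ring, h5]
    · by_cases h2 : F t = true
      · have h5 := hstep t (n - 1)
        have h6 : (if F t then r' n (n - 1) else r n (n - 1)) = 0 := by
          rw [h2]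
          unfold r'
          simp only [if_true]
          split_ifs <;> omega
        rw [h6, hL1 _ (by omega)] at h5
        rw [nxt, if_neg h1, if_pos h2]
        have h7 : t + (n : ZMod d) = t + 1 + ((n - 1 : ℕ) : ZMod d) := by
          rw [Nat.cast_sub (by omega)]
          push_cast
          ring
        rw [h7, h5]
      · have h5 := hstep t n
        have h6 : (if F t then r' n n else r n n) = 0 := by
          rw [if_neg h2]
          unfold r
          simp
        rw [h6, hL2, us, if_neg h1] at h5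
        rw [nxt, if_neg h1, if_neg h2]
        rw [show t + (n : ZMod d) + 1 = t + 1 + n by ring, h5]
  refine ⟨F, col, hF, ?_, ?_⟩
  · intro t
    have h1 : ∀ j : Fin n, col (pt n F t j) =
        (st (t - ((n - 1 : ℕ) : ZMod d))).A (n - 1 - (j : ℕ)) := by
      intro j
      have hj := j.2
      have h2 : col (pt n F t j) = col (t - (j : ℕ)) := by
        unfold pt
        by_cases h3 : (j : ℕ) = 0
        · rw [if_pos h3, h3]
          simp
        · rw [if_neg h3, hL3]
      have e1 : ((n - 1 - (j : ℕ) : ℕ) : ZMod d) = ((n - 1 : ℕ) : ZMod d) - ((j : ℕ) : ZMod d) := by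
        rw [Nat.cast_sub (by omega)]
      rw [h2, hL1 _ (by omega), e1]
      congr 1
      ring
    intro i j hij
    simp only [h1] at hij
    have h4 := hinj _ _ (by omega) _ (by omega) hij
    have hi := i.2
    have hj := j.2
    apply Fin.ext
    omega
  · intro c
    rw [← pN c, card_filter]
    refine sum_nbij' (fun z => z.val) (fun i => (i : ZMod d)) ?_ ?_ ?_ ?_ ?_
    · intro z _
      exact mem_range.2 (ZMod.val_lt z)
    · intro i _
      exact mem_univ _
    · intro z _
      exact ZMod.natCast_zmod_val z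
    · intro i hi
      exact ZMod.val_cast_of_lt (mem_range.1 hi)
    · intro z _
      rfl

theorem occurs_of_walk {m n d : ℕ} (hn : 4 ≤ n) (hnm : n ≤ m) (hd : d ≠ 0)
    (N : Fin (n + 1) → ℕ) (hN : Function.Injective N)
    (h : Reach ⟨A0 n, false⟩ d N ⟨A0 n, false⟩) : isotypic m d n ≠ ⊥ := by
  obtain ⟨k, rfl⟩ : ∃ k, d = k + 1 := ⟨d - 1, by omega⟩
  obtain ⟨F, col, hF, hcol, hcard⟩ := exists_cyclic hn N h
  let e : Fin (k + 1) × Fin n ≃ Fin (k + 1) × Fin n :=
    Equiv.ofBijective (fun x : ZMod (k + 1) × Fin n => (pt n F x.1 x.2, x.2)) (by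
      apply Function.Injective.bijective_of_finite
      rintro ⟨a, i⟩ ⟨b, j⟩ hab
      have h1 : pt n F a i = pt n F b j := congrArg Prod.fst hab
      have h2 : i = j := congrArg Prod.snd hab
      subst h2
      rw [pt_inj hF i h1])
  exact isotypic_ne_bot_of hnm e col hcol (fun σ hσ => rigid hn hF col hcol N hN hcard σ hσ)

/-- `S_{(d^n)} V` occurs in `S^d(S^n V)` -/
theorem occurs {m n d : ℕ} (hn : 4 ≤ n) (hnm : n ≤ m) (hd : n ^ 4 ≤ d) : isotypic m d n ≠ ⊥ := by
  -- the numbers of laps
  obtain ⟨L0, hL0⟩ : ∃ L0 : ℕ, L0 * 2 = n * (n + 1) := by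
    obtain ⟨c, hc⟩ := Nat.even_mul_succ_self n
    exact ⟨c, by rw [hc]; ring⟩
  have hn2 : n * (n + 1) ≤ 2 * n ^ 2 := by nlinarith
  have hbig : n ^ 2 * (L0 + n) + (n + 1) ≤ n ^ 4 := by
    have h1 : n ^ 4 = n ^ 2 * n ^ 2 := by ring
    have h2 : 2 * (n ^ 2 * (L0 + n) + (n + 1)) ≤ 2 * n ^ 4 := by
      have h3 : 2 * (n ^ 2 * (L0 + n) + (n + 1)) =
          n ^ 2 * (n * (n + 1)) + 2 * n ^ 3 + 2 * (n + 1) := by
        rw [← hL0]; ring
      rw [h3]
      have h4 : 4 * n ^ 3 ≤ n ^ 4 := by
        have : n ^ 4 = n * n ^ 3 := by ring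
        rw [this]
        exact Nat.mul_le_mul_right _ hn
      have h5 : 2 * (n + 1) ≤ n ^ 3 := by
        have : n ^ 3 = n * n ^ 2 := by ring
        nlinarith [Nat.mul_le_mul hn (le_refl (n ^ 2))]
      nlinarith
    omega
  have hL0d : L0 ≤ d := by
    have : L0 ≤ n ^ 2 * (L0 + n) := by
      have h1 : 1 ≤ n ^ 2 := Nat.one_le_pow _ _ (by omega)
      nlinarith
    omega
  let ρ := (d - L0) % (n + 1)
  have hρ : ρ < n + 1 := Nat.mod_lt _ (by omega)
  let l : ℕ → ℕ := fun i => if i = n then n + ρ else i
  have hl : ∀ i ≤ n, ∀ j ≤ n, l i = l j → i = j := by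
    intro i hi j hj h
    simp only [l] at h
    split_ifs at h <;> omega
  have hsum : ∑ i ∈ range (n + 1), l i = L0 + ρ := by
    rw [sum_range_succ]
    have h1 : ∑ i ∈ range n, l i = ∑ i ∈ range n, i := by
      refine sum_congr rfl fun i hi => ?_
      have := mem_range.1 hi
      simp only [l]
      rw [if_neg (by omega)]
    have h2 : (∑ i ∈ range n, i) * 2 = n * (n - 1) := Finset.sum_range_id_mul_two n
    have h3 : l n = n + ρ := by simp [l]
    rw [h1, h3]
    have h4 : n * (n - 1) + 2 * n = n * (n + 1) := by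
      obtain ⟨k, rfl⟩ : ∃ k, n = k + 1 := ⟨n - 1, by omega⟩
      simp only [Nat.add_sub_cancel]
      ring
    omega
  have hle : n ^ 2 * (L0 + ρ) + (n + 1) ≤ d := by
    have h1 : n ^ 2 * (L0 + ρ) ≤ n ^ 2 * (L0 + n) := Nat.mul_le_mul_left _ (by omega)
    omega
  have hdvd : (n + 1) ∣ d - n ^ 2 * (L0 + ρ) := by
    have h0 : n ^ 2 * (L0 + ρ) ≤ d := by omega
    rw [← Nat.modEq_iff_dvd' h0]
    have h1 : n ^ 2 ≡ 1 [MOD (n + 1)] := by
      rw [Nat.ModEq.comm]
      rw [Nat.modEq_iff_dvd' (Nat.one_le_pow _ _ (by omega))]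
      refine ⟨n - 1, ?_⟩
      obtain ⟨k, rfl⟩ : ∃ k, n = k + 1 := ⟨n - 1, by omega⟩
      simp only [Nat.add_sub_cancel]
      have : (k + 1) ^ 2 = (k + 1 + 1) * k + 1 := by ring
      omega
    have h2 : n ^ 2 * (L0 + ρ) ≡ 1 * (L0 + ρ) [MOD (n + 1)] := h1.mul_right _
    rw [one_mul] at h2
    have h3 : L0 + ρ ≡ L0 + (d - L0) [MOD (n + 1)] := (Nat.mod_modEq _ _).add_left _
    rw [Nat.add_sub_cancel' hL0d] at h3
    exact h2.trans h3
  obtain ⟨R, hR⟩ := hdvd
  have hR1 : 1 ≤ R := by
    rcases Nat.eq_zero_or_pos R with h | h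
    · rw [h] at hR; omega
    · exact h
  obtain ⟨N, hN, hw⟩ := closed_walk (by omega : 3 ≤ n) l hl (R - 1)
  refine occurs_of_walk hn hnm (by omega) N hN (hw.congr ?_ fun c => rfl)
  rw [hsum, Nat.sub_add_cancel hR1, ← hR]
  omega

end Pool.Agent.KS6_89.HHH
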