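import Mathlib
import Pool.Graph.R_pool_sql_team_seeded_47a924f7.T6.H18.HH.Odd

/-!
# Semi-invariants in `S^d(S^n V)`
-/

set_option autoImplicit false

namespace Pool.Agent.KS6_89.HHH

open Finset Pool.Agent.T6.H18.HH

/-- the semi-invariants of degree `d` in `S^d(S^n ℂ^n)` -/
def Semi (n d : ℕ) (χ : Tensor n (Fin d × Fin n)) : Prop :=
  χ ∈ SdSn n d n ∧ ∀ Y : Matrix (Fin n) (Fin n) ℂ, Y.det ≠ 0 → act Y χ = Y.det ^ d • χ

/-- a tensor with the symmetries of the image of `w0` in `S^d(S^n V)` is zero if there are no
semi-invariants -/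
theorem eq_zero_of_semi' {n l d : ℕ} (H : ∀ χ, Semi n d χ → χ = 0)
    (ψ : Tensor (n + l) (Fin d × Fin n)) (hψ : ψ ∈ SdSn (n + l) d n)
    (h1 : ∀ Y : Matrix (Fin n) (Fin n) ℂ, Y.det ≠ 0 → act (blk l Y) ψ = Y.det ^ d • ψ)
    (h2 : ∀ c : Fin l,
      act (Matrix.diagonal (fun i => if i = Fin.natAdd n c then (2 : ℂ) else 1)) ψ = ψ) : ψ = 0 := by
  classical
  have hle := Nat.le_add_right n l
  obtain ⟨χ, hχ⟩ : ∃ χ, χ = res hle ψ := ⟨_, rfl⟩
  have h3 : ∀ Y : Matrix (Fin n) (Fin n) ℂ, Y.det ≠ 0 → act Y χ = Y.det ^ d • χ := by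
    intro Y hY
    rw [hχ, ← res_act, h1 Y hY]
    rfl
  have hχ0 : χ = 0 := by
    refine H χ ⟨⟨?_, ?_⟩, h3⟩
    · intro τ a
      rw [hχ]
      exact hψ.1 τ (fun x => Fin.castLE hle (a x))
    · intro σ a
      rw [hχ]
      exact hψ.2 σ (fun x => Fin.castLE hle (a x))
  ext b
  by_cases hb : ∃ x, n ≤ (b x).1
  · obtain ⟨x, hx⟩ := hb
    let c : Fin l := ⟨(b x).1 - n, by have := (b x).2; omega⟩
    have hbx : b x = Fin.natAdd n c := by
      ext
      simp [c]
      omega
    have h4 := congrFun (h2 c) b
    rw [act_diag] at h4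
    have h5 : (∏ y, (if b y = Fin.natAdd n c then (2 : ℂ) else 1)) =
        2 ^ (univ.filter fun y => b y = Fin.natAdd n c).card := by
      rw [prod_ite, prod_const, prod_const_one, mul_one]
    rw [h5] at h4
    have h6 : (univ.filter fun y => b y = Fin.natAdd n c).card ≠ 0 := by
      rw [Ne, card_eq_zero]
      intro h
      have : x ∈ univ.filter fun y => b y = Fin.natAdd n c := by simp [hbx]
      rw [h] at this
      exact absurd this (notMem_empty _)
    have h7 : (2 : ℂ) ^ (univ.filter fun y => b y = Fin.natAdd n c).card - 1 ≠ 0 := by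
      rw [sub_ne_zero]
      have h8 : (2 : ℕ) ^ (univ.filter fun y => b y = Fin.natAdd n c).card ≠ 1 := by
        have := Nat.one_lt_two_pow h6
        omega
      exact_mod_cast h8
    have h9 : ((2 : ℂ) ^ (univ.filter fun y => b y = Fin.natAdd n c).card - 1) * ψ b = 0 := by
      linear_combination h4
    rcases mul_eq_zero.1 h9 with h | h
    · exact absurd h h7
    · exact h
  · push Not at hb
    have h4 := congrFun hχ0 (fun x => ⟨(b x).1, hb x⟩)
    rw [hχ] at h4
    exact h4

/-- if there are no semi-invariants then the module does not occur -/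
theorem isotypic_eq_bot {m n d : ℕ} (hd0 : d ≠ 0) (H : ∀ χ, Semi n d χ → χ = 0) :
    isotypic m d n = ⊥ := by
  classical
  rw [eq_bot_iff]
  refine Submodule.span_le.2 ?_
  rintro _ ⟨g, hg, hmem, w, hw, rfl⟩
  change g w ∈ (⊥ : Submodule ℂ _)
  rw [Submodule.mem_bot]
  revert w
  apply hom_zero_of_gen g hg
  intro v
  by_cases hv : LinearIndependent ℂ v
  · have hnm : n ≤ m := by
      have := hv.fintype_card_le_finrank
      simpa using this
    obtain ⟨l, rfl⟩ := Nat.exists_eq_add_of_le hnm
    have hw0 : w0 n l d ∈ rect (n + l) d n := gen_mem _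
    have hzero : g (w0 n l d) = 0 := by
      apply eq_zero_of_semi' H _ (hmem _ hw0)
      · intro Y hY
        have h1 := hg.2.2 (Matrix.GeneralLinearGroup.mkOfDetNeZero (blk l Y) (by rwa [det_blk]))
          (w0 n l d) hw0
        change g (act (blk l Y) (w0 n l d)) = act (blk l Y) (g (w0 n l d)) at h1
        rw [act_blk_w0, hg.2.1 _ _ hw0] at h1
        exact h1.symm
      · intro c
        have hdet : (Matrix.diagonal (fun i => if i = Fin.natAdd n c then (2 : ℂ) else 1)).det ≠ 0 := by
          rw [Matrix.det_diagonal, prod_ne_zero_iff]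
          intro i _
          by_cases hi : i = Fin.natAdd n c <;> simp [hi]
        have h1 := hg.2.2 (Matrix.GeneralLinearGroup.mkOfDetNeZero _ hdet) (w0 n l d) hw0
        change g (act (Matrix.diagonal _) (w0 n l d)) = act (Matrix.diagonal _) (g (w0 n l d)) at h1
        rw [act_diag_w0] at h1
        exact h1.symm
    obtain ⟨gl, hgl⟩ := exists_gl v hv
    have h2 : wedgePow d v = act gl.1 (w0 n l d) := by
      rw [w0, act_wedge]
      congr 1
      ext k i
      rw [hgl]
    rw [h2, hg.2.2 gl _ hw0, hzero]
    ext a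
    simp [act]
  · rw [wedge_dep hd0 v hv]
    have h1 := hg.2.1 0 0 (Submodule.zero_mem _)
    rw [zero_smul, zero_smul] at h1
    exact h1

variable {n d : ℕ} {χ : Tensor n (Fin d × Fin n)}

/-- the weight of a semi-invariant -/
theorem Semi.weight (h : Semi n d χ) (a : Fin d × Fin n → Fin n) (ha : χ a ≠ 0) (k : Fin n) :
    (univ.filter fun x => a x = k).card = d := by
  classical
  let u : Fin n → ℂ := fun i => if i = k then 2 else 1
  have hdet : (Matrix.diagonal u).det = 2 := by
    rw [Matrix.det_diagonal, prod_ite_eq' univ k (fun _ => (2 : ℂ))]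
    simp
  have h1 := congrFun (h.2 (Matrix.diagonal u) (by rw [hdet]; norm_num)) a
  rw [act_diag, hdet, Pi.smul_apply, smul_eq_mul] at h1
  have h2 : ∏ x, u (a x) = 2 ^ (univ.filter fun x => a x = k).card := by
    simp only [u]
    rw [prod_ite, prod_const, prod_const_one, mul_one]
  rw [h2] at h1
  have h3 := mul_right_cancel₀ ha h1
  have h4 : (2 : ℕ) ^ (univ.filter fun x => a x = k).card = 2 ^ d := by exact_mod_cast h3
  exact Nat.pow_right_injective le_rfl h4

theorem Semi.perm (h : Semi n d χ) (σ : Equiv.Perm (Fin n)) (a : Fin d × Fin n → Fin n) :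
    χ (fun x => σ (a x)) = ((Equiv.Perm.sign σ : ℤ) : ℂ) ^ d * χ a := by
  have h1 := h.2 (Matrix.of fun j k => if σ j = k then (1 : ℂ) else 0) (by
    rw [det_perm]
    rcases Int.units_eq_one_or (Equiv.Perm.sign σ) with h | h <;> simp [h])
  have h2 := congrFun h1 a
  rwa [act_perm, det_perm, Pi.smul_apply, smul_eq_mul] at h2

/-- the relations for the root vectors -/
theorem Semi.root (h : Semi n d χ) {i j : Fin n} (hij : i ≠ j) (a : Fin d × Fin n → Fin n) :
    ∑ x ∈ univ.filter (fun x => a x = i), χ (Function.update a x j) = 0 := by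
  classical
  let S : Finset (Fin d × Fin n) := univ.filter fun x => a x = i
  let aT : Finset (Fin d × Fin n) → (Fin d × Fin n → Fin n) := fun T x => if x ∈ T then j else a x
  have h1 : ∀ s : ℂ, ∑ T ∈ S.powerset, s ^ T.card * χ (aT T) = χ a := by
    intro s
    have h2 := congrFun (h.2 (Matrix.transvection i j s) (by
      rw [Matrix.det_transvection_of_ne i j hij]; norm_num)) a
    rw [Matrix.det_transvection_of_ne i j hij, one_pow, one_smul] at h2
    rw [← h2]
    simp only [act]
    have h3 : ∀ b : Fin d × Fin n → Fin n, ∏ x, Matrix.transvection i j s (a x) (b x) =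
        ∑ T ∈ S.powerset, if b = aT T then s ^ T.card else 0 := by
      intro b
      have h4 : ∀ x, Matrix.transvection i j s (a x) (b x) =
          (if a x = i ∧ b x = j then s else 0) + (if b x = a x then 1 else 0) := by
        intro x
        simp only [Matrix.transvection, Matrix.add_apply, Matrix.one_apply, Matrix.single_apply]
        rw [add_comm]
        congr 1
        · by_cases e1 : a x = i
          · by_cases e2 : b x = j
            · simp [e1, e2]
            · have e3 : ¬ j = b x := fun e => e2 e.symm
              simp [e1, e2, e3]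
          · have e3 : ¬ i = a x := fun e => e1 e.symm
            simp [e1, e3]
        · by_cases e1 : a x = b x
          · simp [e1]
          · have e3 : ¬ b x = a x := fun e => e1 e.symm
            simp [e1, e3]
      simp only [h4]
      rw [Finset.prod_add]
      have h5 : ∀ T ∈ (univ : Finset (Fin d × Fin n)).powerset,
          (∏ x ∈ T, (if a x = i ∧ b x = j then s else 0)) *
            ∏ x ∈ univ \ T, (if b x = a x then (1 : ℂ) else 0) =
          if T ⊆ S ∧ b = aT T then s ^ T.card else 0 := by
        intro T _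
        by_cases hT : T ⊆ S ∧ b = aT T
        · rw [if_pos hT]
          obtain ⟨hT1, hT2⟩ := hT
          have e1 : ∏ x ∈ T, (if a x = i ∧ b x = j then s else 0) = s ^ T.card := by
            rw [← prod_const]
            refine prod_congr rfl fun x hx => ?_
            rw [if_pos]
            refine ⟨(mem_filter.1 (hT1 hx)).2, ?_⟩
            rw [hT2]
            simp [aT, hx]
          have e2 : ∏ x ∈ univ \ T, (if b x = a x then (1 : ℂ) else 0) = 1 := by
            refine prod_eq_one fun x hx => ?_
            have hx' : x ∉ T := (mem_sdiff.1 hx).2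
            rw [if_pos]
            rw [hT2]
            simp [aT, hx']
          rw [e1, e2, mul_one]
        · rw [if_neg hT]
          by_contra hne
          apply hT
          have e1 := left_ne_zero_of_mul hne
          have e2 := right_ne_zero_of_mul hne
          rw [prod_ne_zero_iff] at e1 e2
          have e3 : ∀ x ∈ T, a x = i ∧ b x = j := by
            intro x hx
            by_contra hc
            exact e1 x hx (if_neg hc)
          have e4 : ∀ x, x ∉ T → b x = a x := by
            intro x hx
            by_contra hc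
            exact e2 x (mem_sdiff.2 ⟨mem_univ _, hx⟩) (if_neg hc)
          refine ⟨fun x hx => mem_filter.2 ⟨mem_univ _, (e3 x hx).1⟩, ?_⟩
          funext x
          by_cases hx : x ∈ T
          · simp [aT, hx, (e3 x hx).2]
          · simp [aT, hx, e4 x hx]
      rw [sum_congr rfl h5]
      rw [← Finset.sum_subset (powerset_mono.2 (subset_univ S))]
      · refine sum_congr rfl fun T hT => ?_
        simp only [mem_powerset.1 hT, true_and]
      · intro T _ hT
        rw [if_neg]
        intro h6
        exact hT (mem_powerset.2 h6.1)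
    simp only [h3, sum_mul]
    rw [sum_comm]
    refine sum_congr rfl fun T _ => ?_
    rw [sum_eq_single (aT T)]
    · rw [if_pos rfl]
    · intro b _ hb
      rw [if_neg hb, zero_mul]
    · intro h6
      exact absurd (mem_univ _) h6
  let Q : Polynomial ℂ := ∑ T ∈ S.powerset, Polynomial.C (χ (aT T)) * Polynomial.X ^ T.card
  have hQ : Q = Polynomial.C (χ a) := by
    apply Polynomial.funext
    intro s
    simp only [Q, Polynomial.eval_finsetSum, Polynomial.eval_mul, Polynomial.eval_C,
      Polynomial.eval_pow, Polynomial.eval_X]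
    rw [← h1 s]
    exact sum_congr rfl fun T _ => mul_comm _ _
  have h7 := congrArg (fun P => Polynomial.coeff P 1) hQ
  simp only [Q, Polynomial.finsetSum_coeff, Polynomial.coeff_C_mul, Polynomial.coeff_X_pow,
    Polynomial.coeff_C_ne_zero one_ne_zero] at h7
  rw [← h7]
  symm
  have h8 : ∀ T ∈ S.powerset, χ (aT T) * (if 1 = T.card then (1 : ℂ) else 0) =
      if T.card = 1 then χ (aT T) else 0 := by
    intro T _
    by_cases e : T.card = 1
    · simp [e]
    · have e' : ¬ 1 = T.card := fun h => e h.symm
      simp [e, e']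
  rw [sum_congr rfl h8, ← sum_filter]
  have h9 : S.powerset.filter (fun T => T.card = 1) = S.powersetCard 1 := by
    ext T
    simp [mem_powersetCard]
  rw [h9, Finset.powersetCard_one, Finset.sum_map]
  refine sum_congr rfl fun x _ => ?_
  congr 1
  funext y
  by_cases hy : y = x
  · subst hy
    simp [aT]
  · simp [aT, hy]

end Pool.Agent.KS6_89.HHH
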