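import Mathlib
import Pool.Agent.KS6_89.HHH.Semi

/-!
# The semi-invariants in `S^d(S^2 ℂ^2)` and `S^d(S^3 ℂ^3)`, `d` odd or `d < n`, are zero
-/

set_option autoImplicit false

namespace Pool.Agent.KS6_89.HHH

open Finset Pool.Agent.T6.H18.HH

variable {n d : ℕ} {χ : Tensor n (Fin d × Fin n)}

/-- the type of a block -/
def ty (a : Fin d × Fin n → Fin n) (i : Fin d) (k : Fin n) : ℕ :=
  Fintype.card {j : Fin n // a (i, j) = k}

/-- a block symmetric tensor depends only on the types of the blocks -/
theorem eq_of_ty (hχ : χ ∈ SdSn n d n) (a b : Fin d × Fin n → Fin n) (σ : Equiv.Perm (Fin d))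
    (h : ∀ i, ty b i = ty a (σ i)) : χ b = χ a := by
  classical
  have h1 : ∀ i : Fin d, ∃ τ : Equiv.Perm (Fin n), ∀ j, b (i, j) = a (σ i, τ j) := by
    intro i
    refine exists_perm (fun j => b (i, j)) (fun j => a (σ i, j)) fun k => ?_
    exact congrFun (h i) k
  choose τ hτ using h1
  have h2 := hχ.1 τ (fun x => a (σ x.1, x.2))
  have h3 := hχ.2 σ a
  rw [← h3, ← h2]
  congr 1
  funext x
  exact hτ x.1 x.2

theorem eq_of_ty_card (hχ : χ ∈ SdSn n d n) (a b : Fin d × Fin n → Fin n)
    (h : ∀ c : Fin n → ℕ, Fintype.card {i // ty b i = c} = Fintype.card {i // ty a i = c}) :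
    χ b = χ a := by
  classical
  obtain ⟨σ, hσ⟩ := exists_perm (fun i => ty b i) (fun i => ty a i) h
  exact eq_of_ty hχ a b σ hσ

theorem ty_const {a : Fin d × Fin n → Fin n} {i : Fin d} {k : Fin n} (h : ∀ j, a (i, j) = k) :
    ty a i = fun k' => if k' = k then n else 0 := by
  classical
  funext k'
  unfold ty
  by_cases hk : k' = k
  · subst hk
    rw [if_pos rfl, Fintype.card_subtype]
    simp [h]
  · rw [if_neg hk, Fintype.card_subtype]
    rw [card_eq_zero, filter_eq_empty_iff]
    intro j _
    rw [h j]
    exact fun e => hk e.symm

theorem ty_bij {a : Fin d × Fin n → Fin n} {i : Fin d}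
    (h : Function.Bijective fun j => a (i, j)) : ty a i = fun _ => 1 := by
  classical
  funext k
  unfold ty
  obtain ⟨j, hj⟩ := h.2 k
  rw [Fintype.card_eq_one_iff]
  refine ⟨⟨j, hj⟩, ?_⟩
  rintro ⟨j', hj'⟩
  apply Subtype.ext
  apply h.1
  simp only
  rw [hj']
  exact hj.symm

/-- the weight in terms of the types -/
theorem Semi.weight_ty (h : Semi n d χ) (a : Fin d × Fin n → Fin n) (ha : χ a ≠ 0) (k : Fin n) :
    ∑ i, ty a i k = d := by
  classical
  refine Eq.trans ?_ (h.weight a ha k)
  rw [card_filter, Fintype.sum_prod_type]
  refine sum_congr rfl fun i _ => ?_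
  unfold ty
  rw [Fintype.card_subtype, card_filter]

/-- the value is zero if all blocks are constant or bijective, `d` odd -/
theorem Semi.good_zero (h : Semi n d χ) (hd : Odd d) (hn : 2 ≤ n) (a : Fin d × Fin n → Fin n)
    (hg : ∀ i, (∃ k, ∀ j, a (i, j) = k) ∨ Function.Bijective fun j => a (i, j)) : χ a = 0 := by
  classical
  by_contra ha
  let σ : Equiv.Perm (Fin n) := Equiv.swap ⟨0, by omega⟩ ⟨1, by omega⟩
  have hσ : Equiv.Perm.sign σ = -1 := Equiv.Perm.sign_swap (by simp)
  have h1 := h.perm σ a
  rw [hσ] at h1
  have h7 : (((-1 : ℤˣ) : ℤ) : ℂ) ^ d = -1 := by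
    simp [hd.neg_one_pow]
  rw [h7] at h1
  -- the numbers of the constant blocks
  have htyσ : ∀ i k, ty (fun x => σ (a x)) i k = ty a i (σ k) := by
    intro i k
    unfold ty
    apply Fintype.card_congr
    refine Equiv.subtypeEquivRight fun j => ?_
    rw [← Equiv.eq_symm_apply]
    rw [show σ.symm k = σ k by simp [σ]]
  have hpt : ∀ (i : Fin d) (k : Fin n), ty a i k =
      (if ty a i = fun _ => 1 then 1 else 0) + (if ty a i = (fun k' => if k' = k then n else 0)
        then n else 0) := by
    intro i k
    have hne1 : ∀ k : Fin n, (fun k' : Fin n => if k' = k then n else 0) ≠ fun _ => 1 := by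
      intro k e
      have := congrFun e k
      simp only [if_true] at this
      omega
    rcases hg i with ⟨k0, hk0⟩ | hb
    · rw [ty_const hk0]
      rw [if_neg (hne1 k0)]
      by_cases hkk : k = k0
      · subst hkk
        simp
      · have hne : (fun k' : Fin n => if k' = k0 then n else 0) ≠
            fun k' => if k' = k then n else 0 := by
          intro e
          have := congrFun e k
          simp only [if_true] at this
          rw [if_neg hkk] at this
          omega
        rw [if_neg hne]
        simp [hkk]
    · rw [ty_bij hb, if_pos rfl, if_neg (fun e => hne1 k e.symm)]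
  have hcount : ∀ k : Fin n, (univ.filter fun i => ty a i = fun _ => 1).card +
      n * (univ.filter fun i => ty a i = fun k' => if k' = k then n else 0).card = d := by
    intro k
    refine Eq.trans ?_ (h.weight_ty a ha k)
    rw [sum_congr rfl (fun i _ => hpt i k), sum_add_distrib,
      ← card_filter, ← sum_filter, sum_const, smul_eq_mul, mul_comm]
  have h8 : χ (fun x => σ (a x)) = χ a := by
    apply eq_of_ty_card h.1
    intro c
    have h9 : Fintype.card {i // ty (fun x => σ (a x)) i = c} =
        Fintype.card {i // ty a i = fun k => c (σ k)} := by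
      apply Fintype.card_congr
      refine Equiv.subtypeEquivRight fun i => ?_
      constructor
      · intro e
        funext k
        rw [← e, htyσ]
        congr 1
        simp [σ]
      · intro e
        funext k
        rw [htyσ, e]
        simp only
        congr 1
        simp [σ]
    rw [h9]
    simp only [Fintype.card_subtype]
    by_cases hc1 : c = fun _ => 1
    · subst hc1
      rfl
    · by_cases hc2 : ∃ k, c = fun k' => if k' = k then n else 0
      · obtain ⟨k, rfl⟩ := hc2
        have e1 : (fun k' => if σ k' = k then n else 0) =
            fun k' => if k' = σ k then n else 0 := by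
          funext k'
          have : σ k' = k ↔ k' = σ k := by
            rw [← Equiv.eq_symm_apply]
            rw [show σ.symm k = σ k by simp [σ]]
          simp only [this]
        rw [e1]
        have e2 := hcount k
        have e3 := hcount (σ k)
        have e4 : n * (univ.filter fun i => ty a i = fun k' => if k' = σ k then n else 0).card =
            n * (univ.filter fun i => ty a i = fun k' => if k' = k then n else 0).card := by omega
        exact Nat.eq_of_mul_eq_mul_left (by omega) e4
      · -- no such block
        have hno : ∀ c : Fin n → ℕ, (c ≠ fun _ => 1) → (¬ ∃ k, c = fun k' => if k' = k then n else 0) →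
            (univ.filter fun i => ty a i = c).card = 0 := by
          intro c h1 h2
          rw [card_eq_zero, filter_eq_empty_iff]
          intro i _ e
          rcases hg i with ⟨k0, hk0⟩ | hb
          · exact h2 ⟨k0, by rw [← e, ty_const hk0]⟩
          · exact h1 (by rw [← e, ty_bij hb])
        rw [hno c hc1 hc2, hno]
        · intro e
          apply hc1
          funext k
          have := congrFun e (σ k)
          simpa [σ] using this
        · rintro ⟨k, e⟩
          apply hc2
          refine ⟨σ k, ?_⟩
          funext k'
          have h10 := congrFun e (σ k')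
          rw [show σ (σ k') = k' by simp [σ]] at h10
          rw [h10]
          have : σ k' = k ↔ k' = σ k := by
            rw [← Equiv.eq_symm_apply]
            rw [show σ.symm k = σ k by simp [σ]]
          simp only [this]
  rw [h8] at h1
  apply ha
  linear_combination h1 / 2

/-- `n = 2` -/
theorem semi_two (hd : Odd d) (χ : Tensor 2 (Fin d × Fin 2)) (h : Semi 2 d χ) : χ = 0 := by
  funext a
  apply h.good_zero hd le_rfl
  intro i
  have key : ∀ g : Fin 2 → Fin 2, (∃ k, ∀ j, g j = k) ∨ Function.Bijective g := by decide
  exact key fun j => a (i, j)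

/-- the block is neither constant nor bijective -/
def Bad (a : Fin d × Fin n → Fin n) (i : Fin d) : Prop :=
  ¬ (∃ k, ∀ j, a (i, j) = k) ∧ ¬ Function.Bijective fun j => a (i, j)

theorem bad_congr {a b : Fin d × Fin n → Fin n} {i : Fin d} (h : ∀ j, a (i, j) = b (i, j)) :
    Bad a i ↔ Bad b i := by
  unfold Bad
  simp only [h]

theorem classify (g : Fin 3 → Fin 3) : (∃ k, ∀ j, g j = k) ∨ Function.Bijective g ∨
    ∃ i j, i ≠ j ∧ ∀ k, Fintype.card {t // g t = k} = if k = i then 2 else if k = j then 1 else 0 := by
  revert g
  decide

theorem card_one (t : Fin 3) (i j : Fin 3) (hij : i ≠ j) (k : Fin 3) :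
    Fintype.card {s : Fin 3 // (if s = t then j else i) = k} =
      if k = i then 2 else if k = j then 1 else 0 := by
  revert t i j k
  decide

open Classical in
theorem semi_three_aux {χ : Tensor 3 (Fin d × Fin 3)} (h : Semi 3 d χ) (hd : Odd d) (k : ℕ) :
    ∀ (l : ℕ) (a : Fin d × Fin 3 → Fin 3), (univ.filter fun i => Bad a i).card = k →
      (univ.filter fun i => Function.Bijective fun j => a (i, j)).card = l → χ a = 0 := by
  induction k using Nat.strong_induction_on with
  | _ k ihk =>
  intro l
  induction l using Nat.strong_induction_on with
  | _ l ihl =>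
  intro a hB hL
  rcases Nat.eq_zero_or_pos k with hk0 | hk0
  · -- all blocks are good
    apply h.good_zero hd (by norm_num)
    intro i
    rw [hk0, card_eq_zero, filter_eq_empty_iff] at hB
    have h1 := hB (mem_univ i)
    unfold Bad at h1
    tauto
  -- a bad block
  obtain ⟨p, hp⟩ : ∃ p, p ∈ univ.filter fun i => Bad a i := by
    rw [← Finset.Nonempty, ← card_pos, hB]
    exact hk0
  have hpb := (mem_filter.1 hp).2
  obtain ⟨i, j, hij, hty⟩ : ∃ i j, i ≠ j ∧ ∀ k, Fintype.card {t // a (p, t) = k} =
      if k = i then 2 else if k = j then 1 else 0 := by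
    rcases classify (fun t => a (p, t)) with h1 | h1 | h1
    · exact absurd h1 hpb.1
    · exact absurd h1 hpb.2
    · exact h1
  have htyp : ty a p = fun k => if k = i then 2 else if k = j then 1 else 0 := funext hty
  let a' : Fin d × Fin 3 → Fin 3 := fun x => if x.1 = p then i else a x
  have hrel := h.root hij a'
  have key : ∀ x ∈ univ.filter (fun x => a' x = i), χ (Function.update a' x j) =
      if (x.1 = p ∨ ∃ k, ∀ t, a (x.1, t) = k) then χ a else 0 := by
    rintro ⟨q, t⟩ hx
    have hx' : a' (q, t) = i := (mem_filter.1 hx).2
    obtain ⟨b, hb⟩ : ∃ b, b = Function.update a' (q, t) j := ⟨_, rfl⟩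
    rw [← hb]
    -- the entries of `b`
    have hb1 : ∀ q' s, q' ≠ q → q' ≠ p → b (q', s) = a (q', s) := by
      intro q' s h1 h2
      rw [hb, Function.update_of_ne (by simp [h1])]
      simp [a', h2]
    have hb2 : q ≠ p → ∀ s, b (p, s) = i := by
      intro h1 s
      rw [hb, Function.update_of_ne (by simp [h1.symm])]
      simp [a']
    have hb3 : ∀ s, b (q, s) = if s = t then j else (if q = p then i else a (q, s)) := by
      intro s
      rw [hb]
      by_cases hs : s = t
      · subst hs
        simp
      · rw [Function.update_of_ne (by simp [hs])]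
        simp [a', hs]
    by_cases hqp : q = p
    · -- the bad block
      subst hqp
      rw [if_pos (Or.inl rfl)]
      apply eq_of_ty h.1 a b 1
      intro i'
      show ty b i' = ty a i'
      by_cases hi' : i' = q
      · subst hi'
        rw [htyp]
        funext k'
        unfold ty
        simp only [hb3, if_true]
        exact card_one t i j hij k'
      · unfold ty
        simp only [hb1 i' _ hi' hi']
    · have hx2 : a (q, t) = i := by
        have : a' (q, t) = a (q, t) := by simp [a', hqp]
        rw [← this]; exact hx'
      by_cases hqc : ∃ k, ∀ s, a (q, s) = k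
      · -- a constant block
        rw [if_pos (Or.inr hqc)]
        obtain ⟨k', hk'⟩ := hqc
        have hk'i : k' = i := by rw [← hk' t]; exact hx2
        subst hk'i
        apply eq_of_ty h.1 a b (Equiv.swap p q)
        intro i'
        by_cases h1 : i' = p
        · subst h1
          rw [Equiv.swap_apply_left, ty_const hk', ty_const (hb2 hqp)]
        · by_cases h2 : i' = q
          · subst h2
            rw [Equiv.swap_apply_right, htyp]
            funext k''
            unfold ty
            have h3 : ∀ s, b (i', s) = if s = t then j else k' := by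
              intro s
              rw [hb3, if_neg hqp, hk']
            simp only [h3]
            exact card_one t k' j hij k''
          · rw [Equiv.swap_apply_of_ne_of_ne h1 h2]
            unfold ty
            simp only [hb1 i' _ h2 h1]
      · rw [if_neg (by simp only [not_or]; exact ⟨hqp, hqc⟩)]
        -- the bad blocks of `b`
        have hpgood : ¬ Bad b p := fun h1 => h1.1 ⟨i, hb2 hqp⟩
        by_cases hqb : Function.Bijective fun s => a (q, s)
        · have hBb : (univ.filter fun i => Bad b i) ⊆
              insert q ((univ.filter fun i => Bad a i).erase p) := by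
            intro i' hi'
            have h1 := (mem_filter.1 hi').2
            by_cases h2 : i' = q
            · rw [h2]; exact mem_insert_self _ _
            · apply mem_insert_of_mem
              have h3 : i' ≠ p := by
                rintro rfl
                exact hpgood h1
              refine mem_erase.2 ⟨h3, mem_filter.2 ⟨mem_univ _, ?_⟩⟩
              exact (bad_congr fun s => hb1 i' s h2 h3).1 h1
          have hBc : (univ.filter fun i => Bad b i).card ≤ k := by
            refine (card_le_card hBb).trans ((card_insert_le _ _).trans ?_)
            rw [card_erase_of_mem hp, hB]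
            omega
          rcases Nat.lt_or_ge (univ.filter fun i => Bad b i).card k with h1 | h1
          · exact ihk _ h1 _ b rfl rfl
          · have hLb : (univ.filter fun i => Function.Bijective fun j => b (i, j)) ⊆
                (univ.filter fun i => Function.Bijective fun j => a (i, j)).erase q := by
              intro i' hi'
              have h1 := (mem_filter.1 hi').2
              have h2 : i' ≠ q := by
                rintro rfl
                obtain ⟨s, hs⟩ := hqb.2 j
                simp only at hs
                have hst : s ≠ t := by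
                  rintro rfl
                  exact hij (by rw [← hs, ← hx2])
                apply hst
                apply h1.1
                simp only
                rw [hb3 s, hb3 t, if_pos rfl, if_neg hst, if_neg hqp, hs]
              have h3 : i' ≠ p := by
                rintro rfl
                have h4 := @h1.1 0 1 (by simp only [hb2 hqp])
                exact absurd h4 (by decide)
              refine mem_erase.2 ⟨h2, mem_filter.2 ⟨mem_univ _, ?_⟩⟩
              have h5 : (fun j => a (i', j)) = fun j => b (i', j) := by
                funext s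
                exact (hb1 i' s h2 h3).symm
              rw [h5]
              exact h1
            have hq' : q ∈ univ.filter fun i => Function.Bijective fun j => a (i, j) :=
              mem_filter.2 ⟨mem_univ _, hqb⟩
            have hLc : (univ.filter fun i => Function.Bijective fun j => b (i, j)).card < l := by
              refine lt_of_le_of_lt (card_le_card hLb) ?_
              rw [← hL]
              exact card_erase_lt_of_mem hq'
            exact ihl _ hLc b (le_antisymm hBc h1) rfl
        · -- a bad block different from `p`
          have hBb : (univ.filter fun i => Bad b i) ⊆ (univ.filter fun i => Bad a i).erase p := by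
            intro i' hi'
            have h1 := (mem_filter.1 hi').2
            have h3 : i' ≠ p := by
              rintro rfl
              exact hpgood h1
            refine mem_erase.2 ⟨h3, mem_filter.2 ⟨mem_univ _, ?_⟩⟩
            by_cases h2 : i' = q
            · rw [h2]; exact ⟨hqc, hqb⟩
            · exact (bad_congr fun s => hb1 i' s h2 h3).1 h1
          have hBc : (univ.filter fun i => Bad b i).card < k := by
            refine lt_of_le_of_lt (card_le_card hBb) ?_
            rw [← hB]
            exact card_erase_lt_of_mem hp
          exact ihk _ hBc _ b rfl rfl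
  rw [sum_congr rfl key, ← sum_filter, sum_const, nsmul_eq_mul, mul_eq_zero] at hrel
  rcases hrel with h1 | h1
  · exfalso
    rw [Nat.cast_eq_zero, card_eq_zero] at h1
    have h2 : (p, (0 : Fin 3)) ∈ (univ.filter fun x => a' x = i).filter
        (fun x => x.1 = p ∨ ∃ k, ∀ t, a (x.1, t) = k) := by
      refine mem_filter.2 ⟨mem_filter.2 ⟨mem_univ _, ?_⟩, Or.inl rfl⟩
      simp [a']
    rw [h1] at h2
    exact absurd h2 (notMem_empty _)
  · exact h1

/-- `n = 3`, `d` odd -/
theorem semi_three (hd : Odd d) (χ : Tensor 3 (Fin d × Fin 3)) (h : Semi 3 d χ) : χ = 0 := by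
  funext a
  exact semi_three_aux h hd _ _ a rfl rfl

/-- `n = 3`, `d = 2`, a bad block -/
theorem semi_three_two_bad {χ : Tensor 3 (Fin 2 × Fin 3)} (h : Semi 3 2 χ)
    (a : Fin 2 × Fin 3 → Fin 3) (p : Fin 2) (hp : Bad a p) : χ a = 0 := by
  classical
  by_contra hne
  obtain ⟨i, j, hij, hty⟩ : ∃ i j, i ≠ j ∧ ∀ k, Fintype.card {t // a (p, t) = k} =
      if k = i then 2 else if k = j then 1 else 0 := by
    rcases classify (fun t => a (p, t)) with h1 | h1 | h1
    · exact absurd h1 hp.1
    · exact absurd h1 hp.2
    · exact h1
  -- the other block does not contain `i`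
  have hw := h.weight_ty a hne i
  have hother : ∀ q, q ≠ p → ∀ s, a (q, s) ≠ i := by
    intro q hq s hs
    have h1 : ty a p i = 2 := by
      have := hty i
      simpa [ty] using this
    have h2 : 1 ≤ ty a q i := by
      unfold ty
      exact Fintype.card_pos_iff.2 ⟨⟨s, hs⟩⟩
    have h3 : ty a p i + ty a q i ≤ ∑ i', ty a i' i := by
      rw [← Finset.sum_pair (f := fun i' => ty a i' i) hq.symm]
      exact sum_le_sum_of_subset (subset_univ _)
    omega
  let a' : Fin 2 × Fin 3 → Fin 3 := fun x => if x.1 = p then i else a x
  have hrel := h.root hij a'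
  have key : ∀ x ∈ univ.filter (fun x => a' x = i), χ (Function.update a' x j) = χ a := by
    rintro ⟨q, t⟩ hx
    have hx' : a' (q, t) = i := (mem_filter.1 hx).2
    have hqp : q = p := by
      by_contra hqp
      have : a' (q, t) = a (q, t) := by simp [a', hqp]
      exact hother q hqp t (this ▸ hx')
    subst hqp
    apply eq_of_ty h.1 a _ 1
    intro i'
    show ty _ i' = ty a i'
    by_cases hi' : i' = q
    · subst hi'
      have htyp : ty a i' = fun k => if k = i then 2 else if k = j then 1 else 0 := funext hty
      rw [htyp]
      funext k'
      unfold ty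
      have h3 : ∀ s, Function.update a' (i', t) j (i', s) = if s = t then j else i := by
        intro s
        by_cases hs : s = t
        · subst hs
          simp
        · rw [Function.update_of_ne (by simp [hs])]
          simp [a', hs]
      simp only [h3]
      exact card_one t i j hij k'
    · unfold ty
      have h3 : ∀ s, Function.update a' (q, t) j (i', s) = a (i', s) := by
        intro s
        rw [Function.update_of_ne (by simp [hi'])]
        simp [a', hi']
      simp only [h3]
  rw [sum_congr rfl key, sum_const, nsmul_eq_mul, mul_eq_zero] at hrel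
  rcases hrel with h1 | h1
  · rw [Nat.cast_eq_zero, card_eq_zero] at h1
    have h2 : (p, (0 : Fin 3)) ∈ (univ.filter fun x => a' x = i) := by
      refine mem_filter.2 ⟨mem_univ _, ?_⟩
      simp [a']
    rw [h1] at h2
    exact absurd h2 (notMem_empty _)
  · exact hne h1

theorem dec1 : ∀ g : Fin 3 → Fin 3, Function.Bijective g → ∀ t, g t = 1 → ∀ y,
    (if y = t then 0 else g y) = 0 →
    Function.Bijective fun s => if s = y then 1 else if s = t then 0 else g s := by
  decide

theorem dec2 : ∀ g : Fin 3 → Fin 3, Function.Bijective g → ∀ u, g u = 0 →
    ¬ (∃ k, ∀ s, (if s = u then 1 else g s) = k) ∧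
    ¬ Function.Bijective fun s => if s = u then 1 else g s := by
  decide

/-- `n = 3`, `d = 2` -/
theorem semi_three_two (χ : Tensor 3 (Fin 2 × Fin 3)) (h : Semi 3 2 χ) : χ = 0 := by
  classical
  funext a
  by_contra hne
  have hne' : χ a ≠ 0 := hne
  have hbij : ∀ p, Function.Bijective fun s => a (p, s) := by
    intro p
    by_contra hb
    by_cases hc : ∃ k, ∀ s, a (p, s) = k
    · obtain ⟨k, hk⟩ := hc
      have hw := h.weight_ty a hne' k
      have h1 : ty a p k = 3 := by
        rw [ty_const hk]
        simp
      have h3 : ty a p k ≤ ∑ i', ty a i' k :=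
        single_le_sum (f := fun i' => ty a i' k) (fun _ _ => Nat.zero_le _) (mem_univ p)
      omega
    · exact hne' (semi_three_two_bad h a p ⟨hc, hb⟩)
  obtain ⟨t, ht⟩ := (hbij 0).2 1
  simp only at ht
  let a' : Fin 2 × Fin 3 → Fin 3 := Function.update a (0, t) 0
  have hrel := h.root (i := 0) (j := 1) (by decide) a'
  have ha'0 : ∀ y, a' (0, y) = if y = t then 0 else a (0, y) := by
    intro y
    by_cases hy : y = t
    · subst hy; simp [a']
    · simp only [a', hy, if_false]
      rw [Function.update_of_ne (by simp [hy])]
  have ha'1 : ∀ y, a' (1, y) = a (1, y) := by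
    intro y
    simp only [a']
    rw [Function.update_of_ne (by simp)]
  have key : ∀ x ∈ univ.filter (fun x => a' x = 0), χ (Function.update a' x 1) =
      if x.1 = 0 then χ a else 0 := by
    rintro ⟨q, y⟩ hx
    have hx' : a' (q, y) = 0 := (mem_filter.1 hx).2
    by_cases hq : q = 0
    · subst hq
      rw [if_pos rfl]
      apply eq_of_ty h.1 a _ 1
      intro i'
      show ty _ i' = ty a i'
      by_cases hi' : i' = 0
      · subst hi'
        rw [ty_bij (hbij 0)]
        apply ty_bij
        have h3 : ∀ s, Function.update a' (0, y) 1 (0, s) =
            if s = y then 1 else if s = t then 0 else a (0, s) := by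
          intro s
          by_cases hs : s = y
          · subst hs; simp
          · rw [Function.update_of_ne (by simp [hs]), ha'0, if_neg hs]
        simp only [h3]
        exact dec1 _ (hbij 0) t ht y (by rw [← ha'0]; exact hx')
      · have h1' : i' = 1 := by omega
        subst h1'
        unfold ty
        have h3 : ∀ s, Function.update a' (0, y) 1 ((1 : Fin 2), s) = a (1, s) := by
          intro s
          rw [Function.update_of_ne (by simp), ha'1]
        simp only [h3]
    · have h1' : q = 1 := by omega
      subst h1'
      rw [if_neg (by simp)]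
      apply semi_three_two_bad h _ 1
      have h3 : ∀ s, Function.update a' ((1 : Fin 2), y) 1 ((1 : Fin 2), s) =
          if s = y then 1 else a (1, s) := by
        intro s
        by_cases hs : s = y
        · subst hs; simp
        · rw [Function.update_of_ne (by simp [hs]), ha'1, if_neg hs]
      unfold Bad
      simp only [h3]
      exact dec2 _ (hbij 1) y (by rw [← ha'1]; exact hx')
  rw [sum_congr rfl key, ← sum_filter, sum_const, nsmul_eq_mul, mul_eq_zero] at hrel
  rcases hrel with h1 | h1
  · rw [Nat.cast_eq_zero, card_eq_zero] at h1
    have h2 : ((0 : Fin 2), t) ∈ (univ.filter fun x => a' x = 0).filter (fun x => x.1 = 0) := by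
      refine mem_filter.2 ⟨mem_filter.2 ⟨mem_univ _, ?_⟩, rfl⟩
      rw [ha'0, if_pos rfl]
    rw [h1] at h2
    exact absurd h2 (notMem_empty _)
  · exact hne' h1

end Pool.Agent.KS6_89.HHH
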